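import Pool.Agent.Lib.MP_ba0fa5_ag.Iface
import Pool.Agent.Lib.MP_02fec8_nt.Mert

/-!
# NMERT1: Mertens' theorem for all primes
-/

set_option autoImplicit false

namespace Pool.Agent.Lib.MP_ba0fa5_ag.H72

open Finset Pool.Agent.Lib.MP_ba0fa5_ag
open scoped Classical

theorem nmert1 : Nmert1Stmt := by
  obtain ⟨C, -, hC⟩ := Pool.Agent.Lib.MP_02fec8_nt.Mert.mertens1
  refine ⟨C, fun y hy => ?_⟩
  have h := hC y hy
  have e : ∑ l ∈ (Finset.Icc 1 y).filter Nat.Prime, Real.log l / l =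
      Pool.Agent.Lib.MP_02fec8_nt.Mert.M y := by
    unfold Pool.Agent.Lib.MP_02fec8_nt.Mert.M
    apply Finset.sum_congr _ fun _ _ => rfl
    ext l
    rw [Finset.mem_filter, Finset.mem_Icc, Nat.mem_primesLE]
    constructor
    · rintro ⟨⟨_, h2⟩, h3⟩
      exact ⟨h2, h3⟩
    · rintro ⟨h2, h3⟩
      exact ⟨⟨h3.one_lt.le, h2⟩, h3⟩
  rw [e]
  exact h

end Pool.Agent.Lib.MP_ba0fa5_ag.H72
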