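import Pool.Agent.Lib.MP_ba0fa5_ag.Iface

/-!
# NUP: Euler product over the primes of `S` up to `y`
-/

set_option autoImplicit false

namespace Pool.Agent.Lib.MP_ba0fa5_ag.H72

open Finset Pool.Agent.Lib.MP_ba0fa5_ag
open scoped Classical

/-- `n ↦ 1 / n` -/
noncomputable def invHom : ℕ →* ℝ where
  toFun n := (1 : ℝ) / n
  map_one' := by simp
  map_mul' a b := by push_cast; rw [one_div_mul_one_div]

/-- the sum of `1 / n` over the numbers composed of the primes of a finite set -/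
lemma sum_le_prod (s A : Finset ℕ) (hs : ∀ l ∈ s, l.Prime)
    (hA : ∀ n ∈ A, n ≠ 0 ∧ ∀ l : ℕ, l.Prime → l ∣ n → l ∈ s) :
    ∑ n ∈ A, (1 : ℝ) / n ≤ ∏ l ∈ s, (1 - 1 / (l : ℝ))⁻¹ := by
  have h := EulerProduct.summable_and_hasSum_factoredNumbers_prod_filter_prime_geometric
    (f := invHom) (fun {p} hp => by
      have h2 : (1 : ℝ) < p := by exact_mod_cast hp.one_lt
      have h3 : ‖invHom p‖ = 1 / (p : ℝ) := by
        change ‖(1 : ℝ) / p‖ = _
        rw [Real.norm_of_nonneg (by positivity)]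
      rw [h3, div_lt_one (by linarith)]
      exact h2) s
  have hfilter : s.filter (fun p => p.Prime) = s := Finset.filter_true_of_mem hs
  have h2 := h.2
  rw [hfilter] at h2
  change _ ≤ ∏ l ∈ s, (1 - invHom l)⁻¹
  -- injection of `A` into the factored numbers
  let g : {n // n ∈ A} → Nat.factoredNumbers s := fun n =>
    ⟨n.1, Nat.mem_factoredNumbers'.mpr (hA n.1 n.2).2⟩
  have hg : Function.Injective g := by
    intro a b hab
    exact Subtype.ext (congrArg (fun z : Nat.factoredNumbers s => (z : ℕ)) hab)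
  have h3 := sum_le_hasSum (A.attach.map ⟨g, hg⟩) (fun i _ => by
    change (0 : ℝ) ≤ 1 / ((i : ℕ) : ℝ)
    positivity) h2
  rw [Finset.sum_map] at h3
  rw [← Finset.sum_attach]
  exact h3

/-- `∏ (1 - 1/l)⁻¹ ≤ e exp (∑ 1/l)` -/
lemma prod_le_exp (s : Finset ℕ) (hs : ∀ l ∈ s, 2 ≤ l) :
    ∏ l ∈ s, (1 - 1 / (l : ℝ))⁻¹ ≤ Real.exp (∑ l ∈ s, (1 : ℝ) / l + 1) := by
  have h1 : ∏ l ∈ s, (1 - 1 / (l : ℝ))⁻¹ ≤ ∏ l ∈ s, Real.exp (1 / (l : ℝ) + 1 / (l * (l - 1))) := by
    apply Finset.prod_le_prod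
    · intro l hl
      have h2 : (2 : ℝ) ≤ l := by exact_mod_cast hs l hl
      rw [inv_nonneg, sub_nonneg, div_le_one (by linarith)]
      linarith
    · intro l hl
      have h2 : (2 : ℝ) ≤ l := by exact_mod_cast hs l hl
      have h3 : (1 - 1 / (l : ℝ))⁻¹ = 1 / (l : ℝ) + 1 / (l * (l - 1)) + 1 := by
        have h4 : (l : ℝ) ≠ 0 := by linarith
        have h5 : (l : ℝ) - 1 ≠ 0 := by linarith
        have h6 : 1 - 1 / (l : ℝ) = (l - 1) / l := by field_simp
        rw [h6, inv_div]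
        field_simp
        ring
      rw [h3]
      exact Real.add_one_le_exp _
  refine h1.trans ?_
  rw [← Real.exp_sum]
  apply Real.exp_le_exp.mpr
  rw [Finset.sum_add_distrib]
  apply add_le_add le_rfl
  -- telescoping
  obtain ⟨N, hN⟩ : ∃ N : ℕ, s ⊆ Icc 2 (N + 1) := by
    refine ⟨s.sup id, fun l hl => ?_⟩
    rw [Finset.mem_Icc]
    have := Finset.le_sup (f := id) hl
    simp only [id] at this
    exact ⟨hs l hl, by omega⟩
  have h2 : ∀ N : ℕ, ∑ l ∈ Icc 2 (N + 1), (1 : ℝ) / (l * (l - 1)) ≤ 1 - 1 / ((N : ℝ) + 1) := by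
    intro N
    induction N with
    | zero => simp
    | succ N ih =>
      have h3 : Icc 2 (N + 1 + 1) = insert (N + 2) (Icc 2 (N + 1)) := by
        ext i
        simp only [mem_insert, mem_Icc]
        omega
      rw [h3, Finset.sum_insert (by simp)]
      push_cast
      have h4 : (1 : ℝ) / (((N : ℝ) + 2) * ((N : ℝ) + 2 - 1)) = 1 / ((N : ℝ) + 1) - 1 / ((N : ℝ) + 1 + 1) := by
        have h5 : (N : ℝ) + 1 ≠ 0 := by positivity
        have h6 : (N : ℝ) + 2 ≠ 0 := by positivity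
        have h7 : (N : ℝ) + 2 - 1 = N + 1 := by ring
        have h8 : (N : ℝ) + 1 + 1 = N + 2 := by ring
        rw [h7, h8]
        field_simp
        ring
      rw [h4]
      linarith
  calc ∑ l ∈ s, (1 : ℝ) / (l * (l - 1)) ≤ ∑ l ∈ Icc 2 (N + 1), (1 : ℝ) / (l * (l - 1)) := by
        apply Finset.sum_le_sum_of_subset_of_nonneg hN
        intro l hl _
        rw [Finset.mem_Icc] at hl
        have h5 : (2 : ℝ) ≤ l := by exact_mod_cast hl.1
        have h6 : (0 : ℝ) ≤ (l : ℝ) - 1 := by linarith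
        positivity
    _ ≤ 1 - 1 / ((N : ℝ) + 1) := h2 N
    _ ≤ 1 := by
        have : (0 : ℝ) ≤ 1 / ((N : ℝ) + 1) := by positivity
        linarith

/-- the sum over the numbers of `<T>` up to `y` -/
lemma qsum_le (T : Set ℕ) (hT : ∀ l ∈ T, l.Prime) (y : ℕ) :
    ∑ n ∈ qset T 0 y, (1 : ℝ) / n ≤
      Real.exp (∑ l ∈ (Finset.Icc 1 y).filter (fun l => l ∈ T), (1 : ℝ) / l + 1) := by
  refine (sum_le_prod ((Finset.Icc 1 y).filter (fun l => l ∈ T)) _ ?_ ?_).trans
    (prod_le_exp _ ?_)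
  · intro l hl
    exact hT l (Finset.mem_filter.mp hl).2
  · intro n hn
    unfold qset at hn
    rw [Finset.mem_filter, Finset.mem_Ioc] at hn
    refine ⟨hn.2.1, fun l hl hln => ?_⟩
    rw [Finset.mem_filter, Finset.mem_Icc]
    exact ⟨⟨hl.one_lt.le, (Nat.le_of_dvd hn.1.1 hln).trans hn.1.2⟩, hn.2.2 l hl hln⟩
  · intro l hl
    exact (hT l (Finset.mem_filter.mp hl).2).two_le

/-- **NUP** -/
theorem nup (hR : NrecStmt) : NupStmt := by
  intro S hS
  obtain ⟨C, hC⟩ := hR S hS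
  have hSp := hS.1
  have hC0 : 0 ≤ C := (abs_nonneg _).trans (hC 3 le_rfl).1
  refine ⟨Real.exp (2 * C + 1), fun W y hW hWy => ⟨?_, ?_⟩⟩
  · have hW' : (3 : ℝ) ≤ W := by exact_mod_cast hW
    have hy' : (3 : ℝ) ≤ y := by exact_mod_cast hW.trans hWy
    have hlW : 0 < Real.log W := Real.log_pos (by linarith)
    have hly : 0 < Real.log y := Real.log_pos (by linarith)
    refine (qsum_le (big S W) (fun l hl => (hSp l hl.1).1) y).trans ?_
    have h1 : ∑ l ∈ (Finset.Icc 1 y).filter (fun l => l ∈ big S W), (1 : ℝ) / l =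
        ∑ l ∈ (Finset.Icc 1 y).filter (fun l => l ∈ S), (1 : ℝ) / l -
        ∑ l ∈ (Finset.Icc 1 W).filter (fun l => l ∈ S), (1 : ℝ) / l := by
      rw [eq_sub_iff_add_eq, ← Finset.sum_union]
      · apply Finset.sum_congr _ fun _ _ => rfl
        ext l
        simp only [mem_union, mem_filter, mem_Icc, big, Set.mem_setOf_eq]
        constructor
        · rintro (⟨h1, h2, _⟩ | ⟨h1, h2⟩)
          · exact ⟨h1, h2⟩
          · exact ⟨⟨h1.1, h1.2.trans hWy⟩, h2⟩
        · rintro ⟨h1, h2⟩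
          rcases lt_or_ge W l with h3 | h3
          · exact Or.inl ⟨h1, h2, h3⟩
          · exact Or.inr ⟨⟨h1.1, h3⟩, h2⟩
      · rw [Finset.disjoint_left]
        intro l h1 h2
        simp only [mem_filter, mem_Icc, big, Set.mem_setOf_eq] at h1 h2
        omega
    have h2 := (abs_le.mp (hC y (hW.trans hWy)).1).2
    have h3 := (abs_le.mp (hC W hW).1).1
    rw [h1, Real.rpow_def_of_pos (div_pos hly hlW), Real.log_div hly.ne' hlW.ne', ← Real.exp_add]
    apply Real.exp_le_exp.mpr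
    linarith
  · have hy' : (3 : ℝ) ≤ y := by exact_mod_cast hW.trans hWy
    have hly : 0 < Real.log y := Real.log_pos (by linarith)
    refine (qsum_le S (fun l hl => (hSp l hl).1) y).trans ?_
    have h2 := (abs_le.mp (hC y (hW.trans hWy)).1).2
    rw [Real.rpow_def_of_pos hly, ← Real.exp_add]
    apply Real.exp_le_exp.mpr
    linarith

end Pool.Agent.Lib.MP_ba0fa5_ag.H72
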