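import Pool.Agent.Lib.MP_ba0fa5_ag.Iface

/-!
# NRANKIN: the sum over the squarefree numbers up to `D` against the product (Rankin)
-/

set_option autoImplicit false

namespace Pool.Agent.Lib.MP_ba0fa5_ag.H72

open Finset Pool.Agent.Lib.MP_ba0fa5_ag
open scoped Classical

/-- the sum over `sfs P D` as a sum over subsets -/
lemma subsets_le_sfs (P : Finset ℕ) (hP : ∀ l ∈ P, l.Prime) (D : ℕ) (f : ℕ → ℝ) (hf : ∀ l, l ∈ P → 0 ≤ f l) :
    ∑ A ∈ P.powerset.filter (fun A => ∏ l ∈ A, l ≤ D), ∏ l ∈ A, f l ≤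
      ∑ s ∈ sfs P D, ∏ l ∈ s.primeFactors, f l := by
  have hpf : ∀ A ∈ P.powerset, (∏ l ∈ A, l).primeFactors = A := fun A hA =>
    Nat.primeFactors_prod fun p hp => hP p (Finset.mem_powerset.mp hA hp)
  have h1 : ∑ A ∈ P.powerset.filter (fun A => ∏ l ∈ A, l ≤ D), ∏ l ∈ A, f l =
      ∑ s ∈ (P.powerset.filter (fun A => ∏ l ∈ A, l ≤ D)).image (fun A => ∏ l ∈ A, l),
        ∏ l ∈ s.primeFactors, f l := by
    rw [Finset.sum_image]
    · apply Finset.sum_congr rfl
      intro A hA
      rw [hpf A (Finset.mem_filter.mp hA).1]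
    · intro A hA A' hA' h
      have h2 := congrArg Nat.primeFactors h
      simp only at h2
      rwa [hpf A (Finset.mem_filter.mp hA).1, hpf A' (Finset.mem_filter.mp hA').1] at h2
  rw [h1]
  apply Finset.sum_le_sum_of_subset_of_nonneg
  · intro s hs
    rw [Finset.mem_image] at hs
    obtain ⟨A, hA, rfl⟩ := hs
    rw [Finset.mem_filter] at hA
    unfold sfs
    rw [Finset.mem_filter, Finset.mem_Icc]
    have hAP := Finset.mem_powerset.mp hA.1
    refine ⟨⟨Nat.one_le_iff_ne_zero.mpr (Finset.prod_ne_zero_iff.mpr fun l hl =>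
      (hP l (hAP hl)).ne_zero), hA.2⟩, ?_, fun l hl hdvd => ?_⟩
    · apply Finset.squarefree_prod_of_pairwise_isCoprime
      · intro p hp q hq hpq
        exact Nat.coprime_iff_isRelPrime.mp ((Nat.coprime_primes (hP p (hAP hp)) (hP q (hAP hq))).mpr hpq)
      · intro p hp
        exact (hP p (hAP hp)).prime.squarefree
    · have h2 : l ∈ (∏ l ∈ A, l).primeFactors := by
        rw [Nat.mem_primeFactors]
        exact ⟨hl, hdvd, Finset.prod_ne_zero_iff.mpr fun l hl => (hP l (hAP hl)).ne_zero⟩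
      rw [hpf A hA.1] at h2
      exact hAP h2
  · intro s hs _
    apply Finset.prod_nonneg
    intro l hl
    unfold sfs at hs
    rw [Finset.mem_filter] at hs
    exact hf l (hs.2.2 l (Nat.prime_of_mem_primeFactors hl) (Nat.dvd_of_mem_primeFactors hl))

/-- the product against the tail -/
lemma rankin_tail (P : Finset ℕ) (hP : ∀ l ∈ P, l.Prime) (D : ℕ) (hD : 1 ≤ D) (w : ℕ → ℝ)
    (hw : ∀ l ∈ P, 0 ≤ w l ∧ w l ≤ 2) (σ : ℝ) (hσ : 0 ≤ σ) (hσP : ∀ l ∈ P, σ * Real.log l ≤ 1) :
    ∏ l ∈ P, (1 + w l / l) - Real.exp (4 * σ * ∑ l ∈ P, Real.log l / l - σ * Real.log D) *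
      ∏ l ∈ P, (1 + w l / l) ≤ ∑ s ∈ sfs P D, ∏ l ∈ s.primeFactors, w l / l := by
  have hf0 : ∀ l ∈ P, 0 ≤ w l / l := fun l hl => div_nonneg (hw l hl).1 (Nat.cast_nonneg l)
  refine le_trans ?_ (subsets_le_sfs P hP D (fun l => w l / l) hf0)
  have hD0 : (0 : ℝ) < D := by exact_mod_cast hD
  have hsplit := Finset.sum_filter_add_sum_filter_not P.powerset (fun A => ∏ l ∈ A, l ≤ D)
    (fun A => ∏ l ∈ A, w l / l)
  rw [← Finset.prod_one_add] at hsplit
  -- the tail
  have htail : ∑ A ∈ P.powerset.filter (fun A => ¬ ∏ l ∈ A, l ≤ D), ∏ l ∈ A, w l / l ≤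
      Real.exp (4 * σ * ∑ l ∈ P, Real.log l / l - σ * Real.log D) * ∏ l ∈ P, (1 + w l / l) := by
    have h1 : ∀ A ∈ P.powerset.filter (fun A => ¬ ∏ l ∈ A, l ≤ D), ∏ l ∈ A, w l / l ≤
        Real.exp (-(σ * Real.log D)) * ∏ l ∈ A, (w l / l * Real.exp (σ * Real.log l)) := by
      intro A hA
      rw [Finset.mem_filter, not_le] at hA
      have hAP := Finset.mem_powerset.mp hA.1
      rw [Finset.prod_mul_distrib, ← Real.exp_sum, ← Finset.mul_sum]
      have h2 : ∑ l ∈ A, Real.log l = Real.log ((∏ l ∈ A, l : ℕ) : ℝ) := by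
        rw [Nat.cast_prod, Real.log_prod]
        intro l hl
        exact_mod_cast (hP l (hAP hl)).ne_zero
      have h3 : Real.log D ≤ Real.log ((∏ l ∈ A, l : ℕ) : ℝ) :=
        Real.log_le_log hD0 (by exact_mod_cast hA.2.le)
      have h4 : 0 ≤ ∏ l ∈ A, w l / l := Finset.prod_nonneg fun l hl => hf0 l (hAP hl)
      have h5 : 1 ≤ Real.exp (-(σ * Real.log D)) * Real.exp (σ * ∑ l ∈ A, Real.log l) := by
        rw [← Real.exp_add, h2]
        apply Real.one_le_exp
        nlinarith
      calc ∏ l ∈ A, w l / l = (∏ l ∈ A, w l / l) * 1 := (mul_one _).symm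
        _ ≤ (∏ l ∈ A, w l / l) *
            (Real.exp (-(σ * Real.log D)) * Real.exp (σ * ∑ l ∈ A, Real.log l)) :=
          mul_le_mul_of_nonneg_left h5 h4
        _ = _ := by ring
    refine (Finset.sum_le_sum h1).trans ?_
    rw [← Finset.mul_sum]
    have h2 : ∑ A ∈ P.powerset.filter (fun A => ¬ ∏ l ∈ A, l ≤ D),
        ∏ l ∈ A, (w l / l * Real.exp (σ * Real.log l)) ≤
        ∏ l ∈ P, (1 + w l / l * Real.exp (σ * Real.log l)) := by
      rw [Finset.prod_one_add]
      apply Finset.sum_le_sum_of_subset_of_nonneg (Finset.filter_subset _ _)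
      intro A hA _
      exact Finset.prod_nonneg fun l hl =>
        mul_nonneg (hf0 l (Finset.mem_powerset.mp hA hl)) (Real.exp_pos _).le
    refine (mul_le_mul_of_nonneg_left h2 (Real.exp_pos _).le).trans ?_
    have h3 : ∏ l ∈ P, (1 + w l / l * Real.exp (σ * Real.log l)) ≤
        ∏ l ∈ P, (Real.exp (4 * σ * (Real.log l / l)) * (1 + w l / l)) := by
      apply Finset.prod_le_prod
      · intro l hl
        have := hf0 l hl
        positivity
      · intro l hl
        have hl1 : (1 : ℝ) < l := by exact_mod_cast (hP l hl).one_lt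
        have hlog : 0 < Real.log l := Real.log_pos hl1
        obtain ⟨x, hx⟩ : ∃ x, x = σ * Real.log l := ⟨_, rfl⟩
        have hx0 : 0 ≤ x := by rw [hx]; positivity
        have hx1 : x ≤ 1 := by rw [hx]; exact hσP l hl
        have hexp : Real.exp x ≤ 1 + 2 * x := by
          have h4 := Real.exp_bound' hx0 hx1 (n := 2) (by norm_num)
          norm_num [Finset.sum_range_succ] at h4
          nlinarith
        rw [← hx]
        have h4 : 4 * σ * (Real.log l / l) = 4 * x / l := by rw [hx]; ring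
        rw [h4]
        have h5 : 4 * x / l + 1 ≤ Real.exp (4 * x / l) := Real.add_one_le_exp _
        have hw1 := (hw l hl).1
        have hw2 := (hw l hl).2
        have hf := hf0 l hl
        have h6 : w l / l * Real.exp x ≤ w l / l * (1 + 2 * x) := mul_le_mul_of_nonneg_left hexp hf
        have h7 : w l / l * (2 * x) ≤ 4 * x / l := by
          rw [div_mul_eq_mul_div, div_le_div_iff_of_pos_right (by linarith)]
          nlinarith
        have h8 : 0 ≤ 4 * x / l := by positivity
        calc 1 + w l / l * Real.exp x ≤ 1 + w l / l * (1 + 2 * x) := by linarith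
          _ ≤ (4 * x / l + 1) * (1 + w l / l) := by nlinarith
          _ ≤ _ := mul_le_mul_of_nonneg_right h5 (by linarith)
    refine (mul_le_mul_of_nonneg_left h3 (Real.exp_pos _).le).trans (le_of_eq ?_)
    rw [Finset.prod_mul_distrib, ← Real.exp_sum, ← Finset.mul_sum, ← mul_assoc, ← Real.exp_add]
    congr 2
    ring
  linarith

/-- **NRANKIN** -/
theorem nrankin (hM : Nmert1Stmt) : NrankinStmt := by
  obtain ⟨C, hC⟩ := hM
  have hC0 : 0 ≤ C := (abs_nonneg _).trans (hC 1 le_rfl)
  refine ⟨6, ⌈Real.exp (24 * C + 1)⌉₊, by norm_num, fun D hD P w hP => ?_⟩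
  have hD1 : Real.exp (24 * C + 1) ≤ D := (Nat.le_ceil _).trans (by exact_mod_cast hD)
  have hD0 : (0 : ℝ) < D := (Real.exp_pos _).trans_le hD1
  have hlogD : 24 * C + 1 ≤ Real.log D := by
    rw [← Real.log_exp (24 * C + 1)]
    exact Real.log_le_log (Real.exp_pos _) hD1
  have hDpos : 1 ≤ D := by exact_mod_cast hD0
  have hlogD0 : 0 < Real.log D := by linarith
  have hlog6 : ∀ l ∈ P, 6 * Real.log l ≤ Real.log D := by
    intro l hl
    have h1 := (hP l hl).2.1
    have h2 : ((l : ℝ)) ^ 6 ≤ D := by exact_mod_cast h1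
    have h3 : (0 : ℝ) < l := by exact_mod_cast (hP l hl).1.pos
    have h4 := Real.log_le_log (by positivity) h2
    rw [Real.log_pow] at h4
    exact_mod_cast h4
  have hsum : ∑ l ∈ P, Real.log l / l ≤ Real.log D / 6 + C := by
    rcases P.eq_empty_or_nonempty with rfl | hne
    · rw [Finset.sum_empty]
      positivity
    · obtain ⟨z, hz, hmax⟩ := Finset.exists_max_image P id hne
      have hz1 : 1 ≤ z := (hP z hz).1.one_lt.le
      have h1 : ∑ l ∈ P, Real.log l / l ≤
          ∑ l ∈ (Finset.Icc 1 z).filter Nat.Prime, Real.log l / l := by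
        apply Finset.sum_le_sum_of_subset_of_nonneg
        · intro l hl
          rw [Finset.mem_filter, Finset.mem_Icc]
          exact ⟨⟨(hP l hl).1.one_lt.le, hmax l hl⟩, (hP l hl).1⟩
        · intro l hl _
          rw [Finset.mem_filter, Finset.mem_Icc] at hl
          exact div_nonneg (Real.log_nonneg (by exact_mod_cast hl.1.1)) (Nat.cast_nonneg l)
      have h2 := (abs_le.mp (hC z hz1)).2
      have h3 := hlog6 z hz
      linarith
  have hσ : 0 ≤ 6 / Real.log D := by positivity
  have hmain := rankin_tail P (fun l hl => (hP l hl).1) D hDpos w (fun l hl => (hP l hl).2.2)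
    (6 / Real.log D) hσ (fun l hl => by
      rw [div_mul_eq_mul_div, div_le_one hlogD0]
      exact hlog6 l hl)
  have hexp : Real.exp (4 * (6 / Real.log D) * ∑ l ∈ P, Real.log l / l -
      6 / Real.log D * Real.log D) ≤ 1 / 2 := by
    have h1 : 4 * (6 / Real.log D) * ∑ l ∈ P, Real.log l / l - 6 / Real.log D * Real.log D ≤ -1 := by
      have h2 : 4 * (6 / Real.log D) * ∑ l ∈ P, Real.log l / l ≤
          4 * (6 / Real.log D) * (Real.log D / 6 + C) :=
        mul_le_mul_of_nonneg_left hsum (by positivity)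
      have h3 : 4 * (6 / Real.log D) * (Real.log D / 6 + C) = 4 + 24 * C / Real.log D := by
        field_simp
        ring
      have h4 : 24 * C / Real.log D ≤ 1 := by
        rw [div_le_one hlogD0]
        linarith
      have h5 : 6 / Real.log D * Real.log D = 6 := by field_simp
      linarith
    refine (Real.exp_le_exp.mpr h1).trans ?_
    rw [Real.exp_neg, inv_eq_one_div]
    apply one_div_le_one_div_of_le (by norm_num)
    have := Real.add_one_le_exp (1 : ℝ)
    linarith
  have hprod : 0 ≤ ∏ l ∈ P, (1 + w l / l) := by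
    apply Finset.prod_nonneg
    intro l hl
    have : 0 ≤ w l / l := div_nonneg (hP l hl).2.2.1 (Nat.cast_nonneg l)
    linarith
  have h6 := mul_le_mul_of_nonneg_right hexp hprod
  linarith

end Pool.Agent.Lib.MP_ba0fa5_ag.H72
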