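import Pool.Agent.Lib.MP_ba0fa5_ag.Iface

/-!
# GCRT: exponents with prescribed greatest common divisors
-/

set_option autoImplicit false

namespace Pool.Agent.Lib.MP_ba0fa5_ag.H72

open Finset Pool.Agent.Lib.MP_ba0fa5_ag
open scoped Classical

lemma cop_one {l x k : ℕ} (hl : l.Prime) (hx : ¬ l ∣ x) : x.gcd (l ^ k) = 1 :=
  Nat.Coprime.pow_right k ((Nat.Prime.coprime_iff_not_dvd hl).mpr hx).symm

lemma gcrt_aux (m : ℕ) : Odd m → ∀ d₁ d₂ d₃ : ℕ, d₁.Coprime d₂ → d₁.Coprime d₃ → d₂.Coprime d₃ →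
    d₁ ∣ m → d₂ ∣ m → d₃ ∣ m → ∃ a b : ℕ, a.gcd m = d₁ ∧ b.gcd m = d₂ ∧ (a + b).gcd m = d₃ := by
  induction m using Nat.recOnPosPrimePosCoprime with
  | zero =>
    intro h
    exact absurd h (by decide)
  | one =>
    intro _ d₁ d₂ d₃ _ _ _ h1 h2 h3
    rw [Nat.dvd_one] at h1 h2 h3
    subst h1 h2 h3
    exact ⟨0, 0, by simp⟩
  | prime_pow l k hl hk =>
    intro hodd d₁ d₂ d₃ h12 h13 h23 h1 h2 h3
    have hl2 : ¬ l ∣ 2 := by
      intro h
      have h4 : l = 2 := (Nat.prime_dvd_prime_iff_eq hl Nat.prime_two).mp h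
      rw [h4] at hodd
      exact absurd hodd (by
        rw [Nat.not_odd_iff_even]
        exact (Nat.even_pow.mpr ⟨even_two, by omega⟩))
    -- a divisor of `l ^ k` is `1` or divisible by `l`
    have hdiv : ∀ d, d ∣ l ^ k → d = 1 ∨ l ∣ d := by
      intro d hd
      obtain ⟨j, _, rfl⟩ := (Nat.dvd_prime_pow hl).mp hd
      rcases Nat.eq_zero_or_pos j with rfl | hj
      · exact Or.inl (pow_zero l)
      · exact Or.inr (dvd_pow_self l (by omega))
    have hncop : ∀ d d' : ℕ, d.Coprime d' → l ∣ d → l ∣ d' → False := by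
      intro d d' hc hd hd'
      have := Nat.dvd_gcd hd hd'
      rw [hc] at this
      exact hl.one_lt.ne' (Nat.dvd_one.mp this)
    have hpos : ∀ d, d ∣ l ^ k → 0 < d := fun d hd => Nat.pos_of_dvd_of_pos hd (pow_pos hl.pos k)
    have hg1 : (1 : ℕ).gcd (l ^ k) = 1 := Nat.gcd_one_left _
    -- `d + 1` is prime to `l`
    have hsucc : ∀ d, d ∣ l ^ k → ¬ l ∣ d + 1 := by
      intro d hd h
      rcases hdiv d hd with rfl | hd'
      · exact hl2 h
      · have := (Nat.dvd_add_right hd').mp h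
        exact hl.one_lt.ne' (Nat.dvd_one.mp this)
    rcases hdiv d₃ h3 with hd3 | hd3
    · subst hd3
      rcases hdiv d₂ h2 with hd2 | hd2
      · subst hd2
        exact ⟨d₁, 1, Nat.gcd_eq_left h1, hg1, cop_one hl (hsucc d₁ h1)⟩
      · rcases hdiv d₁ h1 with hd1 | hd1
        · subst hd1
          refine ⟨1, d₂, hg1, Nat.gcd_eq_left h2, ?_⟩
          rw [add_comm]
          exact cop_one hl (hsucc d₂ h2)
        · exact absurd (hncop d₁ d₂ h12 hd1 hd2) id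
    · rcases hdiv d₁ h1 with hd1 | hd1
      · rcases hdiv d₂ h2 with hd2 | hd2
        · subst hd1 hd2
          have hp := hpos d₃ h3
          refine ⟨1, d₃ - 1, hg1, ?_, ?_⟩
          · apply cop_one hl
            intro h
            have h5 : l ∣ d₃ - (d₃ - 1) := Nat.dvd_sub hd3 h
            have h6 : d₃ - (d₃ - 1) = 1 := by omega
            rw [h6] at h5
            exact hl.one_lt.ne' (Nat.dvd_one.mp h5)
          · have h6 : 1 + (d₃ - 1) = d₃ := by omega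
            rw [h6]
            exact Nat.gcd_eq_left h3
        · exact absurd (hncop d₂ d₃ h23 hd2 hd3) id
      · exact absurd (hncop d₁ d₃ h13 hd1 hd3) id
  | coprime m₁ m₂ hm₁ hm₂ hcop ih₁ ih₂ =>
    intro hodd d₁ d₂ d₃ h12 h13 h23 h1 h2 h3
    have hodd' := Nat.odd_mul.mp hodd
    have hsubcop : ∀ d d' x : ℕ, d.Coprime d' → (d.gcd x).Coprime (d'.gcd x) := fun d d' x h =>
      Nat.Coprime.coprime_dvd_left (Nat.gcd_dvd_left d x)
        (Nat.Coprime.coprime_dvd_right (Nat.gcd_dvd_left d' x) h)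
    obtain ⟨a', b', ha', hb', hab'⟩ := ih₁ hodd'.1 (d₁.gcd m₁) (d₂.gcd m₁) (d₃.gcd m₁)
      (hsubcop _ _ _ h12) (hsubcop _ _ _ h13) (hsubcop _ _ _ h23) (Nat.gcd_dvd_right _ _)
      (Nat.gcd_dvd_right _ _) (Nat.gcd_dvd_right _ _)
    obtain ⟨a'', b'', ha'', hb'', hab''⟩ := ih₂ hodd'.2 (d₁.gcd m₂) (d₂.gcd m₂) (d₃.gcd m₂)
      (hsubcop _ _ _ h12) (hsubcop _ _ _ h13) (hsubcop _ _ _ h23) (Nat.gcd_dvd_right _ _)
      (Nat.gcd_dvd_right _ _) (Nat.gcd_dvd_right _ _)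
    obtain ⟨a, haa', haa''⟩ := Nat.chineseRemainder hcop a' a''
    obtain ⟨b, hbb', hbb''⟩ := Nat.chineseRemainder hcop b' b''
    have hkey : ∀ d x x' x'' : ℕ, d ∣ m₁ * m₂ → x ≡ x' [MOD m₁] → x ≡ x'' [MOD m₂] →
        x'.gcd m₁ = d.gcd m₁ → x''.gcd m₂ = d.gcd m₂ → x.gcd (m₁ * m₂) = d := by
      intro d x x' x'' hd hx' hx'' h4 h5
      rw [Nat.Coprime.gcd_mul x hcop]
      have h6 : x.gcd m₁ = x'.gcd m₁ := hx'.gcd_eq
      have h7 : x.gcd m₂ = x''.gcd m₂ := hx''.gcd_eq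
      rw [h6, h7, h4, h5, ← Nat.Coprime.gcd_mul d hcop]
      exact Nat.gcd_eq_left hd
    exact ⟨a, b, hkey d₁ a a' a'' h1 haa' haa'' ha' ha'', hkey d₂ b b' b'' h2 hbb' hbb'' hb' hb'',
      hkey d₃ (a + b) (a' + b') (a'' + b'') h3 (haa'.add hbb') (haa''.add hbb'') hab' hab''⟩

/-- **GCRT** -/
theorem gcrt : GcrtStmt := by
  intro m d₁ d₂ d₃ hodd h12 h13 h23 h
  exact gcrt_aux m hodd d₁ d₂ d₃ h12 h13 h23
    ((Dvd.intro (d₂ * d₃) (mul_assoc d₁ d₂ d₃).symm).trans h)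
    ((Dvd.intro (d₁ * d₃) (by ring)).trans h)
    ((Dvd.intro_left (d₁ * d₂) rfl).trans h)

end Pool.Agent.Lib.MP_ba0fa5_ag.H72
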