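import Pool.Agent.Lib.MP_ba0fa5_ag.Iface

/-!
# NAPSUM: dyadic summation
-/

set_option autoImplicit false

namespace Pool.Agent.Lib.MP_ba0fa5_ag.H72

open Finset Pool.Agent.Lib.MP_ba0fa5_ag
open scoped Classical

/-- **NAPSUM** -/
theorem napsum (h1 : NsingleStmt) : NapsumStmt := by
  intro S K hS hK
  obtain ⟨C, y₀, hC⟩ := h1 S hS
  refine ⟨6 * |C| * K, max y₀ 8, fun y hy t a ht hty hat => ?_⟩
  have hy0 : y₀ ≤ y := (le_max_left _ _).trans hy
  have hy8 : 8 ≤ y := (le_max_right _ _).trans hy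
  have hyR : (8 : ℝ) ≤ y := by exact_mod_cast hy8
  have hypos : (0 : ℝ) < y := by linarith
  have hlog8 : 1 ≤ Real.log y := by
    have h2 : Real.exp 1 ≤ y := by
      have := Real.exp_one_lt_d9
      linarith
    rw [← Real.log_exp 1]
    exact Real.log_le_log (Real.exp_pos _) h2
  have hφ : (0 : ℝ) < t.totient := by exact_mod_cast Nat.totient_pos.mpr ht
  obtain ⟨M, hM⟩ : ∃ M : ℝ, M = 2 * |C| / (t.totient * (Real.log y) ^ (3 / 4 : ℝ)) := ⟨_, rfl⟩
  have hl34 : 0 < (Real.log y) ^ (3 / 4 : ℝ) := Real.rpow_pos_of_pos (by linarith) _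
  have hM0 : 0 ≤ M := by rw [hM]; positivity
  -- dyadic blocks
  have hblock : ∀ x : ℕ, y ≤ x →
      ∑ n ∈ (qset S x (2 * x)).filter (fun n => n ≡ a [MOD t]), (1 : ℝ) / n ≤ M := by
    intro x hx
    have hx0 : (0 : ℝ) < x := by exact_mod_cast (by omega : 0 < x)
    have hN := hC (2 * x) (by omega) t a ht (by omega) hat
    have h2 : ∑ n ∈ (qset S x (2 * x)).filter (fun n => n ≡ a [MOD t]), (1 : ℝ) / n ≤
        ((qset S x (2 * x)).filter (fun n => n ≡ a [MOD t])).card * (1 / x) := by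
      rw [← nsmul_eq_mul]
      apply Finset.sum_le_card_nsmul
      intro n hn
      unfold qset at hn
      rw [mem_filter, mem_filter, mem_Ioc] at hn
      exact one_div_le_one_div_of_le hx0 (by exact_mod_cast hn.1.1.1.le)
    have h3 : (((qset S x (2 * x)).filter (fun n => n ≡ a [MOD t])).card : ℝ) ≤
        ((qset S 0 (2 * x)).filter (fun n => n ≡ a [MOD t])).card := by
      exact_mod_cast Finset.card_le_card (by
        intro n hn
        unfold qset at hn ⊢
        rw [mem_filter, mem_filter, mem_Ioc] at hn ⊢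
        exact ⟨⟨⟨by omega, hn.1.1.2⟩, hn.1.2⟩, hn.2⟩)
    have hlx : Real.log y ≤ Real.log ((2 * x : ℕ) : ℝ) := by
      apply Real.log_le_log hypos
      exact_mod_cast (by omega : y ≤ 2 * x)
    have hl34' : (Real.log y) ^ (3 / 4 : ℝ) ≤ (Real.log ((2 * x : ℕ) : ℝ)) ^ (3 / 4 : ℝ) :=
      Real.rpow_le_rpow (by linarith) hlx (by norm_num)
    have h4 : C * ((2 * x : ℕ) : ℝ) / (t.totient * (Real.log ((2 * x : ℕ) : ℝ)) ^ (3 / 4 : ℝ)) ≤
        |C| * ((2 * x : ℕ) : ℝ) / (t.totient * (Real.log y) ^ (3 / 4 : ℝ)) := by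
      apply div_le_div₀ (by positivity)
      · exact mul_le_mul_of_nonneg_right (le_abs_self C) (Nat.cast_nonneg _)
      · positivity
      · exact mul_le_mul_of_nonneg_left hl34' hφ.le
    have h5 : |C| * ((2 * x : ℕ) : ℝ) / (t.totient * (Real.log y) ^ (3 / 4 : ℝ)) * (1 / x) = M := by
      rw [hM]
      push_cast
      field_simp
    calc _ ≤ ((qset S x (2 * x)).filter (fun n => n ≡ a [MOD t])).card * (1 / x : ℝ) := h2
      _ ≤ |C| * ((2 * x : ℕ) : ℝ) / (t.totient * (Real.log y) ^ (3 / 4 : ℝ)) * (1 / x) :=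
        mul_le_mul_of_nonneg_right (h3.trans (hN.trans h4)) (by positivity)
      _ = M := h5
  have hind : ∀ i : ℕ, ∑ n ∈ (qset S y (2 ^ i * y)).filter (fun n => n ≡ a [MOD t]), (1 : ℝ) / n ≤
      i * M := by
    intro i
    induction i with
    | zero => simp [qset]
    | succ i ih =>
      have hxy : y ≤ 2 ^ i * y := Nat.le_mul_of_pos_left y (by positivity)
      have hb := hblock (2 ^ i * y) hxy
      have hsub : (qset S y (2 ^ (i + 1) * y)).filter (fun n => n ≡ a [MOD t]) ⊆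
          (qset S y (2 ^ i * y)).filter (fun n => n ≡ a [MOD t]) ∪
          (qset S (2 ^ i * y) (2 * (2 ^ i * y))).filter (fun n => n ≡ a [MOD t]) := by
        intro n hn
        have e : 2 ^ (i + 1) * y = 2 * (2 ^ i * y) := by ring
        rw [e] at hn
        unfold qset at hn ⊢
        rw [mem_union, mem_filter, mem_filter, mem_filter, mem_filter, mem_Ioc, mem_Ioc]
        rw [mem_filter, mem_filter, mem_Ioc] at hn
        rcases le_or_gt n (2 ^ i * y) with h | h
        · exact Or.inl ⟨⟨⟨hn.1.1.1, h⟩, hn.1.2⟩, hn.2⟩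
        · exact Or.inr ⟨⟨⟨h, hn.1.1.2⟩, hn.1.2⟩, hn.2⟩
      have h2 := Finset.sum_le_sum_of_subset_of_nonneg hsub
        (f := fun n : ℕ => (1 : ℝ) / n) fun n _ _ => by positivity
      have h3 := Finset.sum_union_inter
        (s₁ := (qset S y (2 ^ i * y)).filter (fun n => n ≡ a [MOD t]))
        (s₂ := (qset S (2 ^ i * y) (2 * (2 ^ i * y))).filter (fun n => n ≡ a [MOD t]))
        (f := fun n : ℕ => (1 : ℝ) / n)
      have h4 : 0 ≤ ∑ n ∈ (qset S y (2 ^ i * y)).filter (fun n => n ≡ a [MOD t]) ∩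
          (qset S (2 ^ i * y) (2 * (2 ^ i * y))).filter (fun n => n ≡ a [MOD t]), (1 : ℝ) / n :=
        Finset.sum_nonneg fun n _ => by positivity
      push_cast
      linarith
  -- the number of blocks
  obtain ⟨i, hi⟩ : ∃ i : ℕ, i = K * (Nat.log 2 y + 1) := ⟨_, rfl⟩
  have h2i : y ^ K ≤ 2 ^ i * y := by
    have h2 : y < 2 ^ (Nat.log 2 y + 1) := Nat.lt_pow_succ_log_self (by norm_num) y
    have h3 : y ^ K ≤ (2 ^ (Nat.log 2 y + 1)) ^ K := Nat.pow_le_pow_left h2.le K
    rw [← pow_mul, mul_comm (Nat.log 2 y + 1) K, ← hi] at h3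
    exact h3.trans (Nat.le_mul_of_pos_right _ (by omega))
  have hi2 : (i : ℝ) ≤ 3 * K * Real.log y := by
    have h2 : (Nat.log 2 y : ℝ) ≤ Real.log y / Real.log 2 := Real.natLog_le_logb y 2
    have hl2 : 0.6931471803 < Real.log 2 := Real.log_two_gt_d9
    have h3 : Real.log y / Real.log 2 ≤ 2 * Real.log y := by
      rw [div_le_iff₀ (by linarith)]
      nlinarith
    rw [hi]
    push_cast
    have hK0 : (0 : ℝ) ≤ K := Nat.cast_nonneg K
    nlinarith
  have hmain : ∑ n ∈ (qset S y (y ^ K)).filter (fun n => n ≡ a [MOD t]), (1 : ℝ) / n ≤ i * M := by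
    refine le_trans (Finset.sum_le_sum_of_subset_of_nonneg ?_ fun n _ _ => by positivity) (hind i)
    intro n hn
    unfold qset at hn ⊢
    rw [mem_filter, mem_filter, mem_Ioc] at hn ⊢
    exact ⟨⟨⟨hn.1.1.1, hn.1.1.2.trans h2i⟩, hn.1.2⟩, hn.2⟩
  refine hmain.trans ((mul_le_mul_of_nonneg_right hi2 hM0).trans (le_of_eq ?_))
  have h5 : Real.log y = (Real.log y) ^ (1 / 4 : ℝ) * (Real.log y) ^ (3 / 4 : ℝ) := by
    rw [← Real.rpow_add (by linarith)]
    norm_num
  rw [hM]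
  calc 3 * K * Real.log y * (2 * |C| / (t.totient * (Real.log y) ^ (3 / 4 : ℝ))) =
      3 * K * ((Real.log y) ^ (1 / 4 : ℝ) * (Real.log y) ^ (3 / 4 : ℝ)) *
        (2 * |C| / (t.totient * (Real.log y) ^ (3 / 4 : ℝ))) := by rw [← h5]
    _ = 6 * |C| * K * (Real.log y) ^ (1 / 4 : ℝ) / t.totient := by
      field_simp
      ring

end Pool.Agent.Lib.MP_ba0fa5_ag.H72
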