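import Pool.Agent.Lib.MP_ba0fa5_ag.Iface

/-!
# NAPTRIV: harmonic sums in progressions
-/

set_option autoImplicit false

namespace Pool.Agent.Lib.MP_ba0fa5_ag.H72

open Finset Pool.Agent.Lib.MP_ba0fa5_ag
open scoped Classical

lemma ap_aux {y t a : ℕ} (hy : 1 ≤ y) (ht : 1 ≤ t) : ∀ z : ℕ, y ≤ z →
    ∑ n ∈ (Finset.Ioc y z).filter (fun n => n ≡ a [MOD t]), (1 : ℝ) / n ≤
      1 / y + (Real.log z - Real.log y) / t := by
  intro z
  induction z using Nat.strong_induction_on with
  | _ z ih =>
    intro hz
    have hy0 : (0 : ℝ) < y := by exact_mod_cast hy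
    have ht0 : (0 : ℝ) < t := by exact_mod_cast ht
    rcases hz.eq_or_lt with rfl | hlt
    · simp
    have hz0 : (0 : ℝ) < z := by exact_mod_cast (by omega : 0 < z)
    by_cases hza : z ≡ a [MOD t]
    · by_cases hzt : z ≤ y + t
      · -- only the term `z`
        have hsub : (Finset.Ioc y z).filter (fun n => n ≡ a [MOD t]) ⊆ {z} := by
          intro n hn
          rw [mem_filter, mem_Ioc] at hn
          rw [mem_singleton]
          by_contra hne
          have hnz : n < z := lt_of_le_of_ne hn.1.2 hne
          have h1 : z ≡ n [MOD t] := hza.trans hn.2.symm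
          have h2 : t ∣ z - n := (Nat.modEq_iff_dvd' hnz.le).mp h1.symm
          have h3 := Nat.le_of_dvd (by omega) h2
          omega
        have h1 : ∑ n ∈ (Finset.Ioc y z).filter (fun n => n ≡ a [MOD t]), (1 : ℝ) / n ≤ 1 / z := by
          refine (Finset.sum_le_sum_of_subset_of_nonneg hsub fun n _ _ => by positivity).trans ?_
          rw [Finset.sum_singleton]
        have h2 : (1 : ℝ) / z ≤ 1 / y :=
          one_div_le_one_div_of_le hy0 (by exact_mod_cast hz)
        have h3 : 0 ≤ (Real.log z - Real.log y) / t := by
          apply div_nonneg _ ht0.le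
          rw [sub_nonneg]
          exact Real.log_le_log hy0 (by exact_mod_cast hz)
        linarith
      · rw [not_le] at hzt
        have hi := ih (z - t) (by omega) (by omega)
        have hsub : (Finset.Ioc y z).filter (fun n => n ≡ a [MOD t]) ⊆
            insert z ((Finset.Ioc y (z - t)).filter (fun n => n ≡ a [MOD t])) := by
          intro n hn
          rw [mem_filter, mem_Ioc] at hn
          rw [mem_insert, mem_filter, mem_Ioc]
          by_cases hne : n = z
          · exact Or.inl hne
          · refine Or.inr ⟨⟨hn.1.1, ?_⟩, hn.2⟩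
            have hnz : n < z := lt_of_le_of_ne hn.1.2 hne
            have h1 : z ≡ n [MOD t] := hza.trans hn.2.symm
            have h2 : t ∣ z - n := (Nat.modEq_iff_dvd' hnz.le).mp h1.symm
            have h3 := Nat.le_of_dvd (by omega) h2
            omega
        have hnot : z ∉ (Finset.Ioc y (z - t)).filter (fun n => n ≡ a [MOD t]) := by
          rw [mem_filter, mem_Ioc]
          omega
        have h1 : ∑ n ∈ (Finset.Ioc y z).filter (fun n => n ≡ a [MOD t]), (1 : ℝ) / n ≤
            1 / z + ∑ n ∈ (Finset.Ioc y (z - t)).filter (fun n => n ≡ a [MOD t]), (1 : ℝ) / n := by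
          refine (Finset.sum_le_sum_of_subset_of_nonneg hsub fun n _ _ => by positivity).trans ?_
          rw [Finset.sum_insert hnot]
        have hcast : ((z - t : ℕ) : ℝ) = z - t := Nat.cast_sub (by omega)
        have hzt0 : (0 : ℝ) < z - t := by
          rw [← hcast]
          exact_mod_cast (by omega : 0 < z - t)
        rw [hcast] at hi
        have h2 : (1 : ℝ) / z ≤ (Real.log z - Real.log (z - t)) / t := by
          rw [le_div_iff₀ ht0]
          have h3 : Real.log ((z - t) / z) ≤ (z - t) / z - 1 :=
            Real.log_le_sub_one_of_pos (by positivity)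
          rw [Real.log_div hzt0.ne' hz0.ne'] at h3
          have h4 : ((z : ℝ) - t) / z - 1 = -(1 / z * t) := by field_simp; ring
          linarith
        have h5 : (Real.log z - Real.log y) / t = (Real.log z - Real.log (z - t)) / t +
            (Real.log (z - t) - Real.log y) / t := by ring
        rw [h5]
        linarith
    · have hi := ih (z - 1) (by omega) (by omega)
      have hsub : (Finset.Ioc y z).filter (fun n => n ≡ a [MOD t]) ⊆
          (Finset.Ioc y (z - 1)).filter (fun n => n ≡ a [MOD t]) := by
        intro n hn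
        rw [mem_filter, mem_Ioc] at hn ⊢
        refine ⟨⟨hn.1.1, ?_⟩, hn.2⟩
        by_contra hcon
        have : n = z := by omega
        rw [this] at hn
        exact hza hn.2
      have h1 := Finset.sum_le_sum_of_subset_of_nonneg hsub
        (f := fun n : ℕ => (1 : ℝ) / n) fun n _ _ => by positivity
      have h2 : Real.log ((z - 1 : ℕ) : ℝ) ≤ Real.log z := by
        apply Real.log_le_log (by exact_mod_cast (by omega : 0 < z - 1))
        exact_mod_cast Nat.sub_le z 1
      have h3 : (Real.log ((z - 1 : ℕ) : ℝ) - Real.log y) / t ≤ (Real.log z - Real.log y) / t := by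
        apply div_le_div_of_nonneg_right _ ht0.le
        linarith
      linarith

/-- **NAPTRIV** -/
theorem naptriv : NaptrivStmt := by
  intro K hK
  refine ⟨K, fun y t a hy ht => ?_⟩
  have hyK : y ≤ y ^ K := Nat.le_self_pow (by omega) y
  have h := ap_aux (y := y) (t := t) (a := a) (by omega) ht (y ^ K) hyK
  have ht0 : (0 : ℝ) < t := by exact_mod_cast ht
  have hlog : 0 ≤ Real.log y := Real.log_nonneg (by exact_mod_cast (by omega : 1 ≤ y))
  have h2 : (Real.log ((y ^ K : ℕ) : ℝ) - Real.log y) / t ≤ K * Real.log y / t := by
    apply div_le_div_of_nonneg_right _ ht0.le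
    rw [Nat.cast_pow, Real.log_pow]
    linarith
  linarith

end Pool.Agent.Lib.MP_ba0fa5_ag.H72
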