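import Pool.Agent.Lib.MP_ba0fa5_ag.Iface

/-!
# NDIAG: the diagonal (Paper II.8 (D))
-/

set_option autoImplicit false

namespace Pool.Agent.Lib.MP_ba0fa5_ag.H72

open Finset Pool.Agent.Lib.MP_ba0fa5_ag
open scoped Classical

/-- the number of `x` for a given `h` -/
lemma count_x {S : Set ℕ} {C : ℝ} {y₀ : ℕ}
    (hC : ∀ y : ℕ, y₀ ≤ y → ∀ t a : ℕ, 1 ≤ t → t ^ 2 ≤ y → a.Coprime t →
      (((qset S 0 y).filter (fun n => n ≡ a [MOD t])).card : ℝ) ≤
        C * y / (t.totient * (Real.log y) ^ (3 / 4 : ℝ)))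
    {X h Z : ℕ} (hh : 1 ≤ h) (hZ : 3 ≤ Z) (hy₀ : y₀ ≤ Z) (hX : Z * h ≤ X) :
    (((qset S 0 X).filter (fun x => x * h ≤ X)).card : ℝ) ≤
      |C| * X / (h * (Real.log Z) ^ (3 / 4 : ℝ)) := by
  obtain ⟨q, hq⟩ : ∃ q : ℕ, q = X / h := ⟨_, rfl⟩
  have hZq : Z ≤ q := by
    rw [hq, Nat.le_div_iff_mul_le (by omega)]
    exact hX
  have hZR : (3 : ℝ) ≤ Z := by exact_mod_cast hZ
  have hqR : (Z : ℝ) ≤ q := by exact_mod_cast hZq
  have hh0 : (0 : ℝ) < h := by exact_mod_cast hh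
  have hlZ : 0 < Real.log Z := Real.log_pos (by linarith)
  have h1 := hC q (hy₀.trans hZq) 1 0 le_rfl (by omega) (by simp)
  have hsub : (qset S 0 X).filter (fun x => x * h ≤ X) ⊆
      (qset S 0 q).filter (fun n => n ≡ 0 [MOD 1]) := by
    intro x hx
    unfold qset at hx ⊢
    rw [mem_filter, mem_filter, mem_Ioc] at hx ⊢
    refine ⟨⟨⟨hx.1.1.1, ?_⟩, hx.1.2⟩, Nat.modEq_one⟩
    rw [hq, Nat.le_div_iff_mul_le (by omega)]
    exact hx.2
  have h2 : (((qset S 0 X).filter (fun x => x * h ≤ X)).card : ℝ) ≤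
      ((qset S 0 q).filter (fun n => n ≡ 0 [MOD 1])).card := by
    exact_mod_cast Finset.card_le_card hsub
  have hl : (Real.log Z) ^ (3 / 4 : ℝ) ≤ (Real.log q) ^ (3 / 4 : ℝ) :=
    Real.rpow_le_rpow hlZ.le (Real.log_le_log (by linarith) hqR) (by norm_num)
  have hlpos : 0 < (Real.log Z) ^ (3 / 4 : ℝ) := Real.rpow_pos_of_pos hlZ _
  have hqX : (q : ℝ) ≤ X / h := by
    rw [le_div_iff₀ hh0]
    have : q * h ≤ X := by rw [hq]; exact Nat.div_mul_le_self X h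
    exact_mod_cast this
  have h3 : C * (q : ℝ) / (((1 : ℕ).totient : ℝ) * (Real.log q) ^ (3 / 4 : ℝ)) ≤
      |C| * (X / h) / (Real.log Z) ^ (3 / 4 : ℝ) := by
    rw [Nat.totient_one, Nat.cast_one, one_mul]
    apply div_le_div₀ (by positivity) _ hlpos hl
    exact mul_le_mul (le_abs_self C) hqX (Nat.cast_nonneg q) (abs_nonneg C)
  calc _ ≤ _ := h2
    _ ≤ _ := h1
    _ ≤ _ := h3
    _ = _ := by field_simp

/-- `nvu ≤ 2 (nvu - 1)` -/
lemma hh_bounds {n v u : ℕ} (h : 2 ≤ n * v * u) :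
    1 ≤ hh n v u ∧ (n : ℝ) * v * u ≤ 2 * (hh n v u : ℝ) ∧ hh n v u ≤ n * v * u := by
  unfold hh
  refine ⟨by omega, ?_, Nat.sub_le _ _⟩
  have : n * v * u ≤ 2 * (n * v * u - 1) := by omega
  exact_mod_cast this

lemma triple_sum (A B D : Finset ℕ) :
    ∑ p ∈ A ×ˢ B ×ˢ D, (1 : ℝ) / (p.1 * p.2.1 * p.2.2) =
      (∑ n ∈ A, (1 : ℝ) / n) * ((∑ v ∈ B, (1 : ℝ) / v) * ∑ u ∈ D, (1 : ℝ) / u) := by
  rw [Finset.sum_product, Finset.sum_mul_sum, Finset.sum_mul]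
  apply Finset.sum_congr rfl
  intro n _
  rw [Finset.sum_product, Finset.mul_sum]
  apply Finset.sum_congr rfl
  intro v _
  rw [Finset.mul_sum]
  apply Finset.sum_congr rfl
  intro u _
  rw [one_div_mul_one_div, one_div_mul_one_div, mul_assoc]

/-- **NDIAG** -/
theorem ndiag (h1 : NsingleStmt) (h2 : NupStmt) : NdiagStmt := by
  intro S K hS hK
  obtain ⟨C, y₀, hC⟩ := h1 S hS
  obtain ⟨C', hC'⟩ := h2 S hS
  refine ⟨2 * |C| * (|C'| * (K : ℝ) ^ (1 / 4 : ℝ) * ((|C'| * (K : ℝ) ^ (1 / 4 : ℝ)) *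
    (|C'| * (12 * K * K : ℝ) ^ (1 / 4 : ℝ)))), max y₀ 3, fun Z hZ => ?_⟩
  have hZy : y₀ ≤ Z := (le_max_left _ _).trans hZ
  have hZ3 : 3 ≤ Z := (le_max_right _ _).trans hZ
  have hZR : (3 : ℝ) ≤ Z := by exact_mod_cast hZ3
  have hlZ : 0 < Real.log Z := Real.log_pos (by linarith)
  have hK0 : (0 : ℝ) ≤ K := Nat.cast_nonneg K
  -- the sums of reciprocals
  have hsum : ∀ (lo j : ℕ), 1 ≤ j → ∑ n ∈ qset S lo (Z ^ j), (1 : ℝ) / n ≤
      |C'| * (j : ℝ) ^ (1 / 4 : ℝ) * (Real.log Z) ^ (1 / 4 : ℝ) := by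
    intro lo j hj
    have h3 : 3 ≤ Z ^ j := hZ3.trans (Nat.le_self_pow (by omega) Z)
    have h4 := (hC' 3 (Z ^ j) le_rfl h3).2
    have h5 : ∑ n ∈ qset S lo (Z ^ j), (1 : ℝ) / n ≤ ∑ n ∈ qset S 0 (Z ^ j), (1 : ℝ) / n := by
      apply Finset.sum_le_sum_of_subset_of_nonneg _ fun n _ _ => by positivity
      intro n hn
      unfold qset at hn ⊢
      rw [mem_filter, mem_Ioc] at hn ⊢
      exact ⟨⟨by omega, hn.1.2⟩, hn.2⟩
    refine h5.trans (h4.trans ?_)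
    rw [Nat.cast_pow, Real.log_pow, Real.mul_rpow (Nat.cast_nonneg j) hlZ.le, ← mul_assoc]
    apply mul_le_mul_of_nonneg_right _ (by positivity)
    exact mul_le_mul_of_nonneg_right (le_abs_self C') (by positivity)
  -- fibres
  obtain ⟨T3, hT3⟩ : ∃ T3 : Finset (ℕ × ℕ × ℕ), T3 = qset S Z (Z ^ K) ×ˢ qset S Z (Z ^ K) ×ˢ
    qset S (U1 K Z) (U2 K Z) := ⟨_, rfl⟩
  have hfib : ∀ p ∈ T3, (((TT S K Z).filter (fun t => (t.1, t.2.1, t.2.2.1) = p)).card : ℝ) ≤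
      2 * |C| * XX K Z / (Real.log Z) ^ (3 / 4 : ℝ) * (1 / (p.1 * p.2.1 * p.2.2)) := by
    rintro ⟨n, v, u⟩ hp
    rw [hT3, mem_product, mem_product] at hp
    unfold qset at hp
    rw [mem_filter, mem_filter, mem_filter, mem_Ioc, mem_Ioc, mem_Ioc] at hp
    obtain ⟨⟨⟨hn1, hn2⟩, hn3⟩, ⟨⟨hv1, hv2⟩, hv3⟩, ⟨⟨hu1, hu2⟩, hu3⟩⟩ := hp
    simp only at hn1 hn2 hn3 hv1 hv2 hv3 hu1 hu2 hu3
    have hn0 : 0 < n := by omega
    have hv0 : 0 < v := by omega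
    have hu0 : 0 < u := by omega
    have hnvu : 2 ≤ n * v * u := by
      have h3 : n ≤ n * v * u := by
        rw [mul_assoc]
        exact Nat.le_mul_of_pos_right n (by positivity)
      omega
    obtain ⟨hb1, hb2, hb3⟩ := hh_bounds hnvu
    have hX : Z * hh n v u ≤ XX K Z := by
      have h3 : hh n v u ≤ Z ^ K * Z ^ K * Z ^ (12 * K * K) := by
        refine hb3.trans (Nat.mul_le_mul (Nat.mul_le_mul hn2 hv2) ?_)
        unfold U2 at hu2
        exact hu2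
      calc Z * hh n v u ≤ Z * (Z ^ K * Z ^ K * Z ^ (12 * K * K)) := Nat.mul_le_mul_left Z h3
        _ = Z ^ (1 + (K + K + 12 * K * K)) := by
          rw [pow_add Z 1, pow_add, pow_add, pow_one]
        _ ≤ XX K Z := by
          unfold XX
          apply Nat.pow_le_pow_right (by omega)
          nlinarith
    have hcx := count_x hC hb1 hZ3 hZy hX
    have hinj : ((TT S K Z).filter (fun t => (t.1, t.2.1, t.2.2.1) = (n, v, u))).card ≤
        ((qset S 0 (XX K Z)).filter (fun x => x * hh n v u ≤ XX K Z)).card := by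
      apply Finset.card_le_card_of_injOn (fun t => t.2.2.2)
      · rintro ⟨n', v', u', x⟩ ht
        rw [Finset.mem_coe, mem_filter] at ht
        simp only [Prod.mk.injEq] at ht
        obtain ⟨ht, rfl, rfl, rfl⟩ := ht
        unfold TT at ht
        rw [mem_filter, mem_product, mem_product, mem_product] at ht
        rw [Finset.mem_coe, mem_filter]
        exact ⟨ht.1.2.2.2, ht.2⟩
      · rintro ⟨n', v', u', x⟩ ht ⟨n'', v'', u'', x'⟩ ht' hxx
        rw [Finset.mem_coe, mem_filter] at ht ht'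
        simp only [Prod.mk.injEq] at ht ht'
        obtain ⟨_, rfl, rfl, rfl⟩ := ht
        obtain ⟨_, rfl, rfl, rfl⟩ := ht'
        simp only at hxx
        rw [hxx]
    have hhpos : (0 : ℝ) < hh n v u := by exact_mod_cast hb1
    have hn0' : (0 : ℝ) < n := by exact_mod_cast hn0
    have hv0' : (0 : ℝ) < v := by exact_mod_cast hv0
    have hu0' : (0 : ℝ) < u := by exact_mod_cast hu0
    have hlpos : 0 < (Real.log Z) ^ (3 / 4 : ℝ) := Real.rpow_pos_of_pos hlZ _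
    have h6 : |C| * (XX K Z : ℝ) / (hh n v u * (Real.log Z) ^ (3 / 4 : ℝ)) ≤
        2 * |C| * XX K Z / (Real.log Z) ^ (3 / 4 : ℝ) * (1 / (n * v * u)) := by
      have h7 : 1 / (hh n v u : ℝ) ≤ 2 * (1 / (n * v * u)) := by
        rw [mul_one_div, div_le_div_iff₀ hhpos (by positivity)]
        linarith
      have h8 : 0 ≤ |C| * (XX K Z : ℝ) / (Real.log Z) ^ (3 / 4 : ℝ) := by positivity
      have h9 := mul_le_mul_of_nonneg_left h7 h8
      calc |C| * (XX K Z : ℝ) / (hh n v u * (Real.log Z) ^ (3 / 4 : ℝ)) =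
          |C| * (XX K Z : ℝ) / (Real.log Z) ^ (3 / 4 : ℝ) * (1 / (hh n v u : ℝ)) := by
            field_simp
        _ ≤ _ := h9
        _ = _ := by ring
    exact (le_trans (by exact_mod_cast hinj) hcx).trans h6
  have hmaps : ∀ t ∈ TT S K Z, (t.1, t.2.1, t.2.2.1) ∈ T3 := by
    rintro ⟨n, v, u, x⟩ ht
    unfold TT at ht
    rw [mem_filter, mem_product, mem_product, mem_product] at ht
    rw [hT3, mem_product, mem_product]
    exact ⟨ht.1.1, ht.1.2.1, ht.1.2.2.1⟩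
  have hcard : ((TT S K Z).card : ℝ) =
      ∑ p ∈ T3, (((TT S K Z).filter (fun t => (t.1, t.2.1, t.2.2.1) = p)).card : ℝ) := by
    rw [Finset.card_eq_sum_card_fiberwise hmaps]
    push_cast
    rfl
  rw [hcard]
  refine (Finset.sum_le_sum hfib).trans ?_
  rw [← Finset.mul_sum, hT3, triple_sum]
  have hA := hsum Z K (by omega)
  have hU := hsum (U1 K Z) (12 * K * K) (by nlinarith)
  push_cast at hU
  have hA0 : 0 ≤ ∑ n ∈ qset S Z (Z ^ K), (1 : ℝ) / n := Finset.sum_nonneg fun n _ => by positivity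
  have hU0 : 0 ≤ ∑ n ∈ qset S (U1 K Z) (U2 K Z), (1 : ℝ) / n :=
    Finset.sum_nonneg fun n _ => by positivity
  have hl14 : 0 < (Real.log Z) ^ (1 / 4 : ℝ) := Real.rpow_pos_of_pos hlZ _
  have hl34 : 0 < (Real.log Z) ^ (3 / 4 : ℝ) := Real.rpow_pos_of_pos hlZ _
  have h34 : (Real.log Z) ^ (3 / 4 : ℝ) =
      (Real.log Z) ^ (1 / 4 : ℝ) * ((Real.log Z) ^ (1 / 4 : ℝ) * (Real.log Z) ^ (1 / 4 : ℝ)) := by
    rw [← Real.rpow_add hlZ, ← Real.rpow_add hlZ]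
    norm_num
  have hU' : ∑ n ∈ qset S (U1 K Z) (U2 K Z), (1 : ℝ) / n ≤
      |C'| * (12 * K * K : ℝ) ^ (1 / 4 : ℝ) * (Real.log Z) ^ (1 / 4 : ℝ) := by
    unfold U2
    exact hU
  have hprod := mul_le_mul hA (mul_le_mul hA hU' hU0 (by positivity)) (by positivity) (by positivity)
  have hpre : 0 ≤ 2 * |C| * (XX K Z : ℝ) / (Real.log Z) ^ (3 / 4 : ℝ) := by positivity
  refine (mul_le_mul_of_nonneg_left hprod hpre).trans (le_of_eq ?_)
  rw [h34]
  field_simp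

end Pool.Agent.Lib.MP_ba0fa5_ag.H72
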