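import Pool.Agent.Lib.MP_ba0fa5_ag.H72.Naptriv

/-!
# NF: the pairs with `(n, v) ≠ (n', v')`, `u + v = u' + v'`
-/

set_option autoImplicit false

namespace Pool.Agent.Lib.MP_ba0fa5_ag.H72

open Finset Pool.Agent.Lib.MP_ba0fa5_ag
open scoped Classical

lemma sum_five (A B : Finset ℕ) (f : ℕ → ℝ) :
    ∑ p ∈ A ×ˢ A ×ˢ A ×ˢ A ×ˢ B, f p.2.2.2.2 = (A.card : ℝ) ^ 4 * ∑ u ∈ B, f u := by
  rw [Finset.sum_product]
  simp only [Finset.sum_product, Finset.sum_const, nsmul_eq_mul]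
  ring

lemma mem_TT {S : Set ℕ} {K Z n v u x : ℕ} (h : (n, v, u, x) ∈ TT S K Z) :
    (Z < n ∧ n ≤ Z ^ K) ∧ (Z < v ∧ v ≤ Z ^ K) ∧ (U1 K Z < u ∧ u ≤ U2 K Z) ∧
      (1 ≤ x ∧ x ≤ XX K Z) ∧ x * hh n v u ≤ XX K Z := by
  unfold TT qset at h
  simp only [mem_filter, mem_product, mem_Ioc] at h
  exact ⟨h.1.1.1, h.1.2.1.1, h.1.2.2.1.1, ⟨h.1.2.2.2.1.1, h.1.2.2.2.1.2⟩, h.2⟩

/-- `u ≤ nvu - 1` -/
lemma le_hh {n v u : ℕ} (hn : 2 ≤ n) (hv : 1 ≤ v) (_ : 1 ≤ u) : u ≤ hh n v u := by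
  unfold hh
  have h1 : 2 * u ≤ n * v * u := by
    apply Nat.mul_le_mul_right
    nlinarith
  omega

/-- the fibre over `(n, v, n', v', u)` -/
lemma nf_fibre (h1 : NcountpStmt) (h2 : NalgStmt) {S : Set ℕ} {K Z : ℕ} (hZ : 2 ≤ Z)
    (p : ℕ × ℕ × ℕ × ℕ × ℕ) (hp : 0 < p.2.2.2.2) :
    ((((TT S K Z ×ˢ TT S K Z).filter (fun q => ¬ (q.1.1 = q.2.1 ∧ q.1.2.1 = q.2.2.1) ∧
      q.1.2.2.1 + q.1.2.1 = q.2.2.2.1 + q.2.2.1 ∧ Coinc q.1 q.2)).filter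
        (fun q => (q.1.1, q.1.2.1, q.2.1, q.2.2.1, q.1.2.2.1) = p)).card : ℝ) ≤
      2 * (XX K Z : ℝ) * ((Z : ℝ) ^ K) ^ 5 / U1 K Z * (1 / p.2.2.2.2) + 1 := by
  obtain ⟨n, v, n', v', u⟩ := p
  simp only at hp ⊢
  have hu0 : (0 : ℝ) < u := by exact_mod_cast hp
  rcases Finset.eq_empty_or_nonempty
    (((TT S K Z ×ˢ TT S K Z).filter (fun q => ¬ (q.1.1 = q.2.1 ∧ q.1.2.1 = q.2.2.1) ∧
      q.1.2.2.1 + q.1.2.1 = q.2.2.2.1 + q.2.2.1 ∧ Coinc q.1 q.2)).filter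
        (fun q => (q.1.1, q.1.2.1, q.2.1, q.2.2.1, q.1.2.2.1) = (n, v, n', v', u))) with he | hne
  · rw [he, Finset.card_empty, Nat.cast_zero]
    positivity
  -- the value of `u'`
  obtain ⟨⟨⟨n₀, v₀, u₀, x₀⟩, ⟨n₁, v₁, u', x₁⟩⟩, hq⟩ := hne
  simp only [mem_filter, mem_product, Prod.mk.injEq] at hq
  obtain ⟨⟨⟨ht, ht'⟩, hnv, huv, hco⟩, rfl, rfl, rfl, rfl, rfl⟩ := hq
  obtain ⟨⟨hn, hn2⟩, ⟨hv, hv2⟩, ⟨hu, hu2⟩, hx, hxX⟩ := mem_TT ht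
  obtain ⟨⟨hn', hn2'⟩, ⟨hv', hv2'⟩, ⟨hu', hu2'⟩, hx', hxX'⟩ := mem_TT ht'
  have hh1 := le_hh (n := n₀) (v := v₀) (u := u₀) (by omega) (by omega) (by omega)
  have hh2 := le_hh (n := n₁) (v := v₁) (u := u') (by omega) (by omega) (by omega)
  have hU1 : 0 < U1 K Z := by unfold U1; positivity
  -- the gcd
  have hG : (hh n₀ v₀ u₀).gcd (hh n₁ v₁ u') ≤ 2 * (Z ^ K) ^ 5 := by
    have hE := ((h2.2.1 n₀ v₀ u₀ n₁ v₁ u' ((hh n₀ v₀ u₀).gcd (hh n₁ v₁ u')) (by omega) (by omega)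
      (by omega) (by omega) (by omega) (by omega) (Nat.gcd_dvd_left _ _) (Nat.gcd_dvd_right _ _)).2
      (by
        have h3 : ((u₀ : ℤ) + v₀ - u' - v₁) = 0 := by omega
        rw [h3]
        exact dvd_zero _))
    have hE0 : EE n₀ v₀ n₁ v₁ ≠ 0 := fun h =>
      hnv (h2.1 n₀ v₀ n₁ v₁ (by omega) (by omega) (by omega) (by omega) h)
    have hEb := h2.2.2 n₀ v₀ n₁ v₁ (Z ^ K) hn2 hv2 hn2' hv2'
    have h3 := Int.le_of_dvd (abs_pos.mpr hE0) ((dvd_abs _ _).mpr hE)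
    have h4 := h3.trans hEb
    exact_mod_cast h4
  have hc := h1 (hh n₀ v₀ u₀) (hh n₁ v₁ u') (XX K Z) 0 (by omega) (by omega)
  have hinj : (((TT S K Z ×ˢ TT S K Z).filter (fun q => ¬ (q.1.1 = q.2.1 ∧ q.1.2.1 = q.2.2.1) ∧
      q.1.2.2.1 + q.1.2.1 = q.2.2.2.1 + q.2.2.1 ∧ Coinc q.1 q.2)).filter
        (fun q => (q.1.1, q.1.2.1, q.2.1, q.2.2.1, q.1.2.2.1) = (n₀, v₀, n₁, v₁, u₀))).card ≤
      ((Finset.Icc 1 (XX K Z) ×ˢ Finset.Icc 1 (XX K Z)).filter (fun t : ℕ × ℕ =>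
      (t.1 * hh n₀ v₀ u₀ : ℤ) - t.2 * hh n₁ v₁ u' = 0 ∧ t.1 * hh n₀ v₀ u₀ ≤ XX K Z)).card := by
    apply Finset.card_le_card_of_injOn (fun q => (q.1.2.2.2, q.2.2.2.2))
    · rintro ⟨⟨n, v, u, x⟩, ⟨n', v', u'', x'⟩⟩ hq
      rw [Finset.mem_coe] at hq
      simp only [mem_filter, mem_product, Prod.mk.injEq] at hq
      obtain ⟨⟨⟨hs, hs'⟩, -, huv', hco'⟩, rfl, rfl, rfl, rfl, rfl⟩ := hq
      have hu'' : u'' = u' := by omega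
      subst hu''
      obtain ⟨-, -, -, hxx, hxXX⟩ := mem_TT hs
      obtain ⟨-, -, -, hxx', -⟩ := mem_TT hs'
      rw [Finset.mem_coe]
      simp only [mem_filter, mem_product, mem_Icc]
      refine ⟨⟨hxx, hxx'⟩, ?_, hxXX⟩
      unfold Coinc at hco'
      simp only at hco'
      have h5 : x * hh n v u = x' * hh n' v' u'' := by omega
      have h6 : (x * hh n v u : ℤ) = x' * hh n' v' u'' := by exact_mod_cast h5
      rw [h6, sub_self]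
    · rintro ⟨⟨n, v, u, x⟩, ⟨n', v', u'', x'⟩⟩ hq ⟨⟨m, w, y, z⟩, ⟨m', w', y', z'⟩⟩ hq' hxx
      rw [Finset.mem_coe] at hq hq'
      simp only [mem_filter, mem_product, Prod.mk.injEq] at hq hq'
      obtain ⟨⟨-, -, huv', -⟩, rfl, rfl, rfl, rfl, rfl⟩ := hq
      obtain ⟨⟨-, -, huv'', -⟩, rfl, rfl, rfl, rfl, rfl⟩ := hq'
      simp only [Prod.mk.injEq] at hxx
      obtain ⟨rfl, rfl⟩ := hxx
      have h5 : u'' = y' := by omega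
      rw [h5]
  refine le_trans (by exact_mod_cast hinj) (hc.trans ?_)
  have hhR : (0 : ℝ) < hh n₀ v₀ u₀ := by exact_mod_cast (by omega : 0 < hh n₀ v₀ u₀)
  have hhR' : (0 : ℝ) < hh n₁ v₁ u' := by exact_mod_cast (by omega : 0 < hh n₁ v₁ u')
  have hU1R : (0 : ℝ) < U1 K Z := by exact_mod_cast hU1
  have hGR : (((hh n₀ v₀ u₀).gcd (hh n₁ v₁ u') : ℕ) : ℝ) ≤ 2 * ((Z : ℝ) ^ K) ^ 5 := by
    exact_mod_cast hG
  have hb1 : (u₀ : ℝ) ≤ hh n₀ v₀ u₀ := by exact_mod_cast hh1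
  have hb2 : (U1 K Z : ℝ) ≤ hh n₁ v₁ u' := by exact_mod_cast hu'.le.trans hh2
  have h7 : (XX K Z : ℝ) * ((hh n₀ v₀ u₀).gcd (hh n₁ v₁ u') : ℕ) / (hh n₀ v₀ u₀ * hh n₁ v₁ u') ≤
      (XX K Z : ℝ) * (2 * ((Z : ℝ) ^ K) ^ 5) / (u₀ * U1 K Z) := by
    apply div_le_div₀ (by positivity)
    · exact mul_le_mul_of_nonneg_left hGR (Nat.cast_nonneg _)
    · positivity
    · exact mul_le_mul hb1 hb2 hU1R.le hhR.le
  have h8 : (XX K Z : ℝ) * (2 * ((Z : ℝ) ^ K) ^ 5) / (u₀ * U1 K Z) =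
      2 * (XX K Z : ℝ) * ((Z : ℝ) ^ K) ^ 5 / U1 K Z * (1 / u₀) := by
    field_simp
  linarith

/-- **NF** -/
theorem nf (h1 : NcountpStmt) (h2 : NalgStmt) : NfStmt := by
  intro S K hS hK
  refine ⟨52 * K * K + 2, fun Z hZ => ?_⟩
  have hZ2 : 2 ≤ Z := by omega
  have hZR : (2 : ℝ) ≤ Z := by exact_mod_cast hZ2
  have hZK : (52 * K * K : ℝ) ≤ Z := by exact_mod_cast (by omega : 52 * K * K ≤ Z)
  have hK3 : (3 : ℝ) ≤ K := by exact_mod_cast hK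
  obtain ⟨A, hA⟩ : ∃ A : Finset ℕ, A = Ioc Z (Z ^ K) := ⟨_, rfl⟩
  obtain ⟨B, hB⟩ : ∃ B : Finset ℕ, B = Ioc (U1 K Z) (U2 K Z) := ⟨_, rfl⟩
  have hmaps : ∀ q ∈ (TT S K Z ×ˢ TT S K Z).filter (fun q => ¬ (q.1.1 = q.2.1 ∧ q.1.2.1 = q.2.2.1) ∧
      q.1.2.2.1 + q.1.2.1 = q.2.2.2.1 + q.2.2.1 ∧ Coinc q.1 q.2),
      (q.1.1, q.1.2.1, q.2.1, q.2.2.1, q.1.2.2.1) ∈ A ×ˢ A ×ˢ A ×ˢ A ×ˢ B := by
    rintro ⟨⟨n, v, u, x⟩, ⟨n', v', u', x'⟩⟩ hq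
    rw [mem_filter, mem_product] at hq
    obtain ⟨hn, hv, hu, -, -⟩ := mem_TT hq.1.1
    obtain ⟨hn', hv', -, -, -⟩ := mem_TT hq.1.2
    rw [hA, hB]
    simp only [mem_product, mem_Ioc]
    exact ⟨hn, hv, hn', hv', hu⟩
  rw [Finset.card_eq_sum_card_fiberwise hmaps]
  push_cast
  have hfib : ∀ p ∈ A ×ˢ A ×ˢ A ×ˢ A ×ˢ B,
      ((((TT S K Z ×ˢ TT S K Z).filter (fun q => ¬ (q.1.1 = q.2.1 ∧ q.1.2.1 = q.2.2.1) ∧
      q.1.2.2.1 + q.1.2.1 = q.2.2.2.1 + q.2.2.1 ∧ Coinc q.1 q.2)).filter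
        (fun q => (q.1.1, q.1.2.1, q.2.1, q.2.2.1, q.1.2.2.1) = p)).card : ℝ) ≤
      2 * (XX K Z : ℝ) * ((Z : ℝ) ^ K) ^ 5 / U1 K Z * (1 / p.2.2.2.2) + 1 := by
    intro p hp
    apply nf_fibre h1 h2 hZ2
    rw [hA, hB] at hp
    simp only [mem_product, mem_Ioc] at hp
    omega
  refine (Finset.sum_le_sum hfib).trans ?_
  rw [sum_five A B (fun u => 2 * (XX K Z : ℝ) * ((Z : ℝ) ^ K) ^ 5 / U1 K Z * (1 / u) + 1),
    Finset.sum_add_distrib, ← Finset.mul_sum]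
  -- bounds
  have hAc : (A.card : ℝ) ≤ (Z : ℝ) ^ K := by
    rw [hA, Nat.card_Ioc]
    exact_mod_cast Nat.sub_le _ _
  have hBc : ∑ u ∈ B, (1 : ℝ) ≤ (Z : ℝ) ^ (12 * K * K) := by
    rw [Finset.sum_const, nsmul_eq_mul, mul_one, hB, Nat.card_Ioc]
    exact_mod_cast Nat.sub_le _ _
  have hU1e : (U1 K Z : ℝ) = (Z : ℝ) ^ (12 * K) := by unfold U1; push_cast; rfl
  have hlogZ : Real.log Z ≤ Z := (Real.log_le_sub_one_of_pos (by linarith)).trans (by linarith)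
  have hlogZ0 : 0 ≤ Real.log Z := Real.log_nonneg (by linarith)
  have hBs : ∑ u ∈ B, (1 : ℝ) / u ≤ 13 * K * K * Z := by
    have hU12 : U1 K Z ≤ U2 K Z := by
      unfold U1 U2
      exact Nat.pow_le_pow_right (by omega) (by nlinarith)
    have hU1p : 1 ≤ U1 K Z := by unfold U1; exact Nat.one_le_pow _ _ (by omega)
    have h := ap_aux (a := 0) hU1p (le_refl 1) (U2 K Z) hU12
    have e : (Finset.Ioc (U1 K Z) (U2 K Z)).filter (fun n => n ≡ 0 [MOD 1]) = B := by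
      rw [hB]
      exact Finset.filter_true_of_mem fun n _ => Nat.modEq_one
    rw [e] at h
    have h3 : Real.log (U2 K Z) = 12 * K * K * Real.log Z := by
      unfold U2
      push_cast
      rw [Real.log_pow]
      push_cast
      ring
    have h4 : 0 ≤ Real.log (U1 K Z) := Real.log_nonneg (by exact_mod_cast hU1p)
    have h5 : (1 : ℝ) / (U1 K Z : ℝ) ≤ 1 := by
      rw [div_le_one (by exact_mod_cast hU1p)]
      exact_mod_cast hU1p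
    rw [h3] at h
    push_cast at h
    rw [div_one] at h
    have h6 : 12 * (K : ℝ) * K * Real.log Z ≤ 12 * K * K * Z :=
      mul_le_mul_of_nonneg_left hlogZ (by positivity)
    have h7 : (9 : ℝ) ≤ K * K := by nlinarith
    have h8 : (1 : ℝ) ≤ K * K * Z := by nlinarith
    linarith
  have hBs0 : 0 ≤ ∑ u ∈ B, (1 : ℝ) / u := Finset.sum_nonneg fun u _ => by positivity
  have hBc0 : 0 ≤ ∑ u ∈ B, (1 : ℝ) := Finset.sum_nonneg fun u _ => by norm_num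
  have hXXe : (XX K Z : ℝ) = (Z : ℝ) ^ (8 * (3 * K + 12 * K * K)) := by unfold XX; push_cast; rfl
  have hX0 : (0 : ℝ) ≤ XX K Z := Nat.cast_nonneg _
  have hZ1 : (1 : ℝ) ≤ Z := by linarith
  have hA4 : (A.card : ℝ) ^ 4 ≤ ((Z : ℝ) ^ K) ^ 4 := pow_le_pow_left₀ (Nat.cast_nonneg _) hAc 4
  have hZK0 : (0 : ℝ) < (Z : ℝ) ^ K := by positivity
  -- first part
  have hP1 : ((Z : ℝ) ^ K) ^ 4 * (2 * (XX K Z : ℝ) * ((Z : ℝ) ^ K) ^ 5 / U1 K Z * (13 * K * K * Z)) ≤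
      (XX K Z : ℝ) / 2 := by
    have h3 : ((Z : ℝ) ^ K) ^ 4 * (2 * (XX K Z : ℝ) * ((Z : ℝ) ^ K) ^ 5 / U1 K Z *
        (13 * K * K * Z)) = (XX K Z : ℝ) * (26 * K * K * Z / (Z : ℝ) ^ (3 * K)) := by
      have h4 : (Z : ℝ) ^ (12 * K) = ((Z : ℝ) ^ K) ^ 9 * (Z : ℝ) ^ (3 * K) := by
        rw [← pow_mul, ← pow_add]
        congr 1
        ring
      rw [hU1e, h4]
      have h5 : (Z : ℝ) ^ (3 * K) ≠ 0 := by positivity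
      field_simp
      ring
    rw [h3]
    have h4 : 26 * (K : ℝ) * K * Z / (Z : ℝ) ^ (3 * K) ≤ 1 / 2 := by
      rw [div_le_div_iff₀ (by positivity) (by norm_num)]
      have h5 : (Z : ℝ) ^ 2 ≤ (Z : ℝ) ^ (3 * K) := pow_le_pow_right₀ hZ1 (by omega)
      nlinarith
    have := mul_le_mul_of_nonneg_left h4 hX0
    linarith
  have hP2 : ((Z : ℝ) ^ K) ^ 4 * (Z : ℝ) ^ (12 * K * K) ≤ (XX K Z : ℝ) / 2 := by
    rw [hXXe, le_div_iff₀ (by norm_num)]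
    calc ((Z : ℝ) ^ K) ^ 4 * (Z : ℝ) ^ (12 * K * K) * 2 ≤
        ((Z : ℝ) ^ K) ^ 4 * (Z : ℝ) ^ (12 * K * K) * Z := by
          apply mul_le_mul_of_nonneg_left hZR (by positivity)
      _ = (Z : ℝ) ^ (4 * K + 12 * K * K + 1) := by
          rw [← pow_mul, pow_succ, pow_add, mul_comm K 4]
      _ ≤ _ := by
          apply pow_le_pow_right₀ hZ1
          nlinarith
  have hfac : 0 ≤ 2 * (XX K Z : ℝ) * ((Z : ℝ) ^ K) ^ 5 / U1 K Z := by positivity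
  calc (A.card : ℝ) ^ 4 * (2 * (XX K Z : ℝ) * ((Z : ℝ) ^ K) ^ 5 / U1 K Z * ∑ u ∈ B, (1 : ℝ) / u +
        ∑ u ∈ B, (1 : ℝ)) ≤
      ((Z : ℝ) ^ K) ^ 4 * (2 * (XX K Z : ℝ) * ((Z : ℝ) ^ K) ^ 5 / U1 K Z * (13 * K * K * Z) +
        (Z : ℝ) ^ (12 * K * K)) := by
        apply mul_le_mul hA4 _ (by positivity) (by positivity)
        exact add_le_add (mul_le_mul_of_nonneg_left hBs hfac) hBc
    _ = ((Z : ℝ) ^ K) ^ 4 * (2 * (XX K Z : ℝ) * ((Z : ℝ) ^ K) ^ 5 / U1 K Z * (13 * K * K * Z)) +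
        ((Z : ℝ) ^ K) ^ 4 * (Z : ℝ) ^ (12 * K * K) := by ring
    _ ≤ XX K Z := by linarith

end Pool.Agent.Lib.MP_ba0fa5_ag.H72
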