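import Pool.Agent.Lib.MP_ba0fa5_ag.Iface

/-!
# NREC: sums of reciprocals by partial summation
-/

set_option autoImplicit false

namespace Pool.Agent.Lib.MP_ba0fa5_ag.H72

open Finset Pool.Agent.Lib.MP_ba0fa5_ag
open scoped Classical

/-- partial summation -/
theorem recip (T : ℕ → Prop) [DecidablePred T] {κ C₀ : ℝ}
    (hC : ∀ y : ℕ, 1 ≤ y →
      |∑ l ∈ (Finset.Icc 1 y).filter T, Real.log l / l - κ * Real.log y| ≤ C₀) :
    ∃ C : ℝ, ∀ y : ℕ, 2 ≤ y →
      |∑ l ∈ (Finset.Icc 1 y).filter T, (1 : ℝ) / l - κ * Real.log (Real.log y)| ≤ C := by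
  obtain ⟨M, hM⟩ : ∃ M : ℕ → ℝ, M = fun y =>
    ∑ l ∈ (Finset.Icc 1 y).filter T, Real.log l / l := ⟨_, rfl⟩
  obtain ⟨S, hS⟩ : ∃ S : ℕ → ℝ, S = fun y =>
    ∑ l ∈ (Finset.Icc 1 y).filter T, (1 : ℝ) / l := ⟨_, rfl⟩
  have hC' : ∀ y : ℕ, 1 ≤ y → |M y - κ * Real.log y| ≤ C₀ := by
    intro y hy
    rw [hM]
    exact hC y hy
  have hC0 : 0 ≤ C₀ := (abs_nonneg _).trans (hC' 1 le_rfl)
  have hIcc : ∀ z : ℕ, Icc 1 (z + 1) = insert (z + 1) (Icc 1 z) := by
    intro z
    ext i
    simp only [mem_insert, mem_Icc]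
    omega
  have hstep : ∀ z : ℕ, 2 ≤ z → S (z + 1) = S z + (M (z + 1) - M z) / Real.log ((z + 1 : ℕ) : ℝ) := by
    intro z hz
    have hu : Real.log ((z + 1 : ℕ) : ℝ) ≠ 0 := by
      have : (1 : ℝ) < ((z + 1 : ℕ) : ℝ) := by
        have h2 : (2 : ℝ) ≤ z := by exact_mod_cast hz
        push_cast
        linarith
      exact (Real.log_pos this).ne'
    have hnot : z + 1 ∉ (Icc 1 z).filter T := by
      rw [mem_filter, mem_Icc]
      omega
    rw [hM, hS]
    simp only
    rw [hIcc, Finset.filter_insert]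
    split_ifs with h
    · rw [Finset.sum_insert hnot, Finset.sum_insert hnot]
      have hz0 : ((z + 1 : ℕ) : ℝ) ≠ 0 := by positivity
      field_simp
      ring
    · simp
  -- the potential
  obtain ⟨Φ, hΦ⟩ : ∃ Φ : ℕ → ℝ, Φ = fun z =>
    S z - (M z - κ * Real.log z) / Real.log z - κ * Real.log (Real.log z) := ⟨_, rfl⟩
  have hpot : ∀ z : ℕ, 2 ≤ z → |Φ z - Φ 2| ≤ (C₀ + |κ|) * (1 / Real.log 2 - 1 / Real.log z) := by
    intro z hz
    induction z, hz using Nat.le_induction with
    | base => simp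
    | succ z hz ih =>
      obtain ⟨v, hv⟩ : ∃ v, v = Real.log (z : ℝ) := ⟨_, rfl⟩
      obtain ⟨u, hu⟩ : ∃ u, u = Real.log ((z + 1 : ℕ) : ℝ) := ⟨_, rfl⟩
      have hz2 : (2 : ℝ) ≤ z := by exact_mod_cast hz
      have hv0 : 0 < v := by rw [hv]; exact Real.log_pos (by linarith)
      have huv : v ≤ u := by
        rw [hv, hu]; exact Real.log_le_log (by linarith) (by push_cast; linarith)
      have hu0 : 0 < u := lt_of_lt_of_le hv0 huv
      have huv1 : u - v ≤ 1 := by
        rw [hu, hv, ← Real.log_div (by positivity) (by positivity)]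
        have h1 : Real.log (((z + 1 : ℕ) : ℝ) / z) ≤ ((z + 1 : ℕ) : ℝ) / z - 1 :=
          Real.log_le_sub_one_of_pos (by positivity)
        have h2 : ((z + 1 : ℕ) : ℝ) / z - 1 ≤ 1 := by
          rw [sub_le_iff_le_add, div_le_iff₀ (by linarith)]
          push_cast; linarith
        linarith
      have hlog1 : Real.log u - Real.log v ≤ (u - v) / v := by
        rw [← Real.log_div hu0.ne' hv0.ne']
        have h1 : Real.log (u / v) ≤ u / v - 1 := Real.log_le_sub_one_of_pos (by positivity)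
        have h2 : u / v - 1 = (u - v) / v := by field_simp
        linarith
      have hlog2 : (u - v) / u ≤ Real.log u - Real.log v := by
        have h1 : Real.log (v / u) ≤ v / u - 1 := Real.log_le_sub_one_of_pos (by positivity)
        rw [Real.log_div hv0.ne' hu0.ne'] at h1
        have h2 : v / u - 1 = - ((u - v) / u) := by field_simp; ring
        linarith
      have hgap : 0 ≤ 1 / v - 1 / u := by
        rw [sub_nonneg]; exact one_div_le_one_div_of_le hv0 huv
      have hE := hC' z (by omega)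
      rw [← hv] at hE
      have h2 : (u - v) / v - (u - v) / u ≤ 1 / v - 1 / u := by
        have h3 : (u - v) / v - (u - v) / u = (u - v) * (1 / v - 1 / u) := by ring
        rw [h3]
        calc (u - v) * (1 / v - 1 / u) ≤ 1 * (1 / v - 1 / u) := mul_le_mul_of_nonneg_right huv1 hgap
          _ = _ := one_mul _
      have hdiff : Φ (z + 1) - Φ z = (M z - κ * v) * (1 / v - 1 / u) -
          κ * (Real.log u - Real.log v - (u - v) / u) := by
        rw [hΦ]
        simp only
        rw [hstep z hz, ← hu, ← hv]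
        field_simp
        ring
      have h4 : |Φ (z + 1) - Φ z| ≤ (C₀ + |κ|) * (1 / v - 1 / u) := by
        rw [hdiff]
        refine (abs_sub _ _).trans ?_
        rw [abs_mul, abs_mul, abs_of_nonneg hgap]
        have h5 : |Real.log u - Real.log v - (u - v) / u| ≤ 1 / v - 1 / u := by
          rw [abs_of_nonneg (by linarith)]
          linarith
        have h6 := mul_le_mul_of_nonneg_right hE hgap
        have h7 := mul_le_mul_of_nonneg_left h5 (abs_nonneg κ)
        linarith
      have h5 : |Φ (z + 1) - Φ 2| ≤ |Φ (z + 1) - Φ z| + |Φ z - Φ 2| := by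
        have : Φ (z + 1) - Φ 2 = (Φ (z + 1) - Φ z) + (Φ z - Φ 2) := by ring
        rw [this]
        exact abs_add_le _ _
      rw [← hv] at ih
      rw [← hu]
      have h6 : (C₀ + |κ|) * (1 / Real.log 2 - 1 / u) =
          (C₀ + |κ|) * (1 / v - 1 / u) + (C₀ + |κ|) * (1 / Real.log 2 - 1 / v) := by ring
      rw [h6]
      linarith
  have hl2 : 0 < Real.log 2 := Real.log_pos (by norm_num)
  refine ⟨|Φ 2| + (C₀ + |κ|) * (1 / Real.log 2) + C₀ * (1 / Real.log 2), fun y hy => ?_⟩
  have hy2 : (2 : ℝ) ≤ y := by exact_mod_cast hy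
  have hly : Real.log 2 ≤ Real.log y := Real.log_le_log (by norm_num) hy2
  have hly0 : 0 < Real.log y := lt_of_lt_of_le hl2 hly
  have h1 := hpot y hy
  have h2 : 1 / Real.log y ≤ 1 / Real.log 2 := one_div_le_one_div_of_le hl2 hly
  have h3 := hC' y (by omega)
  have h4 : |(M y - κ * Real.log y) / Real.log y| ≤ C₀ * (1 / Real.log 2) := by
    rw [abs_div, abs_of_pos hly0, div_eq_mul_one_div]
    exact mul_le_mul h3 h2 (by positivity) hC0
  have h5 : (C₀ + |κ|) * (1 / Real.log 2 - 1 / Real.log y) ≤ (C₀ + |κ|) * (1 / Real.log 2) := by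
    apply mul_le_mul_of_nonneg_left _ (by positivity)
    have : 0 < 1 / Real.log y := by positivity
    linarith
  have e : ∑ l ∈ (Finset.Icc 1 y).filter T, (1 : ℝ) / l -
      κ * Real.log (Real.log y) =
      Φ 2 + (Φ y - Φ 2) + (M y - κ * Real.log y) / Real.log y := by
    rw [hΦ, hS]
    ring
  rw [e]
  refine (abs_add_le _ _).trans ?_
  have h6 := abs_add_le (Φ 2) (Φ y - Φ 2)
  linarith

/-- **NREC** -/
theorem nrec (hM : Nmert1Stmt) : NrecStmt := by
  intro S hS
  obtain ⟨hSp, C₀, hC₀⟩ := hS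
  obtain ⟨C₁, hC₁⟩ := hM
  obtain ⟨C, hC⟩ := recip (fun l => l ∈ S) (κ := 1 / 4) (C₀ := C₀) (fun y hy => by
    have e : (1 / 4 : ℝ) * Real.log y = Real.log y / 4 := by ring
    rw [e]
    exact hC₀ y hy)
  have hsplit : ∀ y : ℕ, ∀ f : ℕ → ℝ, ∑ l ∈ (Finset.Icc 1 y).filter Nat.Prime, f l =
      ∑ l ∈ (Finset.Icc 1 y).filter (fun l => l ∈ S), f l +
      ∑ l ∈ (Finset.Icc 1 y).filter (fun l => l.Prime ∧ l ∉ S), f l := by
    intro y f
    rw [← Finset.sum_filter_add_sum_filter_not ((Finset.Icc 1 y).filter Nat.Prime) (fun l => l ∈ S)]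
    congr 1
    · apply Finset.sum_congr _ fun _ _ => rfl
      ext l
      rw [mem_filter, mem_filter, mem_filter]
      constructor
      · rintro ⟨⟨h1, _⟩, h3⟩
        exact ⟨h1, h3⟩
      · rintro ⟨h1, h3⟩
        exact ⟨⟨h1, (hSp l h3).1⟩, h3⟩
    · apply Finset.sum_congr _ fun _ _ => rfl
      ext l
      rw [mem_filter, mem_filter, mem_filter]
      exact and_assoc
  obtain ⟨C', hC'⟩ := recip (fun l => l.Prime ∧ l ∉ S) (κ := 3 / 4) (C₀ := C₁ + C₀) (fun y hy => by
    have h1 := hC₁ y hy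
    have h2 := hC₀ y hy
    rw [hsplit y (fun l => Real.log l / l)] at h1
    have e : ∑ l ∈ (Finset.Icc 1 y).filter (fun l => l.Prime ∧ l ∉ S), Real.log l / l -
        3 / 4 * Real.log y =
        (∑ l ∈ (Finset.Icc 1 y).filter (fun l => l ∈ S), Real.log l / l +
          ∑ l ∈ (Finset.Icc 1 y).filter (fun l => l.Prime ∧ l ∉ S), Real.log l / l -
          Real.log y) -
        (∑ l ∈ (Finset.Icc 1 y).filter (fun l => l ∈ S), Real.log l / l - Real.log y / 4) := by
      ring
    rw [e]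
    exact (abs_sub _ _).trans (add_le_add h1 h2))
  refine ⟨max C C', fun y hy => ⟨?_, ?_⟩⟩
  · have h := hC y (by omega)
    have e : Real.log (Real.log y) / 4 = 1 / 4 * Real.log (Real.log y) := by ring
    rw [e]
    exact h.trans (le_max_left _ _)
  · have h := hC' y (by omega)
    have e : 3 * Real.log (Real.log y) / 4 = 3 / 4 * Real.log (Real.log y) := by ring
    rw [e]
    exact h.trans (le_max_right _ _)

end Pool.Agent.Lib.MP_ba0fa5_ag.H72
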