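import Pool.Agent.Lib.MP_ba0fa5_ag.Iface

/-!
# NSM: the second moment
-/

set_option autoImplicit false

namespace Pool.Agent.Lib.MP_ba0fa5_ag.H72

open Finset Pool.Agent.Lib.MP_ba0fa5_ag
open scoped Classical

/-- **NSM** -/
theorem nsm (h1 : NdiagStmt) (h2 : NeStmt) (h3 : NfStmt) (h4 : NmmStmt) : NsmStmt := by
  intro S K hS hK
  obtain ⟨C₁, Z₁, hD⟩ := h1 S K hS hK
  obtain ⟨Z₂, hE⟩ := h2 S K hS hK
  obtain ⟨Z₃, hF⟩ := h3 S K hS hK
  obtain ⟨C₄, Z₄, hM⟩ := h4 S K hS hK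
  refine ⟨C₁ + 1 + 1 + C₄, Z₁ + Z₂ + Z₃ + Z₄ + 2, fun Z hZ => ?_⟩
  have hD' := hD Z (by omega)
  have hE' := hE Z (by omega)
  have hF' := hF Z (by omega)
  have hM' := hM Z (by omega)
  obtain ⟨A, hA⟩ : ∃ A, A = (TT S K Z).image (fun t => (t, t)) := ⟨_, rfl⟩
  obtain ⟨B, hB⟩ : ∃ B, B = (TT S K Z ×ˢ TT S K Z).filter (fun q => q.1.1 = q.2.1 ∧
      q.1.2.1 = q.2.2.1 ∧ q.1.2.2.1 ≠ q.2.2.2.1 ∧ Coinc q.1 q.2) := ⟨_, rfl⟩
  obtain ⟨D, hDd⟩ : ∃ D, D = (TT S K Z ×ˢ TT S K Z).filter (fun q =>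
      ¬ (q.1.1 = q.2.1 ∧ q.1.2.1 = q.2.2.1) ∧
      q.1.2.2.1 + q.1.2.1 = q.2.2.2.1 + q.2.2.1 ∧ Coinc q.1 q.2) := ⟨_, rfl⟩
  obtain ⟨G, hG⟩ : ∃ G, G = (TT S K Z ×ˢ TT S K Z).filter (fun q =>
      ¬ (q.1.1 = q.2.1 ∧ q.1.2.1 = q.2.2.1) ∧
      q.1.2.2.1 + q.1.2.1 ≠ q.2.2.2.1 + q.2.2.1 ∧ Coinc q.1 q.2) := ⟨_, rfl⟩
  have hsub : (TT S K Z ×ˢ TT S K Z).filter (fun q => Coinc q.1 q.2) ⊆ A ∪ B ∪ D ∪ G := by
    rintro ⟨⟨n, v, u, x⟩, ⟨n', v', u', x'⟩⟩ hq
    rw [mem_filter] at hq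
    rw [mem_union, mem_union, mem_union, hA, hB, hDd, hG, mem_filter, mem_filter, mem_filter,
      mem_image]
    obtain ⟨hq1, hq2⟩ := hq
    by_cases hnv : n = n' ∧ v = v'
    · obtain ⟨rfl, rfl⟩ := hnv
      by_cases hu : u = u'
      · subst hu
        refine Or.inl (Or.inl (Or.inl ⟨(n, v, u, x), (mem_product.mp hq1).1, ?_⟩))
        have hmem := (mem_product.mp hq1).1
        unfold TT at hmem
        rw [mem_filter, mem_product, mem_product, mem_product] at hmem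
        unfold qset at hmem
        simp only [mem_filter, mem_Ioc] at hmem
        have hn : Z < n := hmem.1.1.1.1
        have hv : 0 < v := by
          have := hmem.1.2.1.1.1
          omega
        have hu : 0 < u := by
          have := hmem.1.2.2.1.1.1
          omega
        have h5 : n ≤ n * v * u := by
          rw [mul_assoc]
          exact Nat.le_mul_of_pos_right n (by positivity)
        have hpos : 0 < hh n v u := by
          unfold hh
          omega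
        unfold Coinc at hq2
        simp only at hq2
        have h6 : x * hh n v u = x' * hh n v u := by omega
        have h7 : x = x' := Nat.eq_of_mul_eq_mul_right hpos h6
        rw [h7]
      · exact Or.inl (Or.inl (Or.inr ⟨hq1, rfl, rfl, hu, hq2⟩))
    · by_cases hs : u + v = u' + v'
      · exact Or.inl (Or.inr ⟨hq1, hnv, hs, hq2⟩)
      · exact Or.inr ⟨hq1, hnv, hs, hq2⟩
  have hcard := Finset.card_le_card hsub
  have hc1 := Finset.card_union_le (A ∪ B ∪ D) G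
  have hc2 := Finset.card_union_le (A ∪ B) D
  have hc3 := Finset.card_union_le A B
  have hAc : A.card ≤ (TT S K Z).card := by
    rw [hA]
    exact Finset.card_image_le
  have htot : (((TT S K Z ×ˢ TT S K Z).filter (fun q => Coinc q.1 q.2)).card : ℝ) ≤
      (TT S K Z).card + B.card + D.card + G.card := by
    exact_mod_cast (by omega :
      ((TT S K Z ×ˢ TT S K Z).filter (fun q => Coinc q.1 q.2)).card ≤
        (TT S K Z).card + B.card + D.card + G.card)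
  rw [← hB] at hE'
  rw [← hDd] at hF'
  rw [← hG] at hM'
  linarith

end Pool.Agent.Lib.MP_ba0fa5_ag.H72
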