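import Pool.Agent.Lib.MP_ba0fa5_ag.Iface

/-!
# NCNT: number of primes of `S`
-/

set_option autoImplicit false

namespace Pool.Agent.Lib.MP_ba0fa5_ag.H72

open Finset Pool.Agent.Lib.MP_ba0fa5_ag
open scoped Classical

/-- **NCNT** -/
theorem ncnt : NcntStmt := by
  intro S hS
  obtain ⟨hSp, C₀, hC₀⟩ := hS
  have hC0 : 0 ≤ C₀ := (abs_nonneg _).trans (hC₀ 1 le_rfl)
  obtain ⟨B, hB⟩ : ∃ B : ℕ, B = ⌈Real.exp (8 * C₀ + 4)⌉₊ := ⟨_, rfl⟩
  have hB1 : Real.exp (8 * C₀ + 4) ≤ B := by rw [hB]; exact Nat.le_ceil _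
  have hB0 : (0 : ℝ) < B := (Real.exp_pos _).trans_le hB1
  have hBpos : 0 < B := by exact_mod_cast hB0
  have hlogB : 8 * C₀ + 4 ≤ Real.log B := by
    rw [← Real.log_exp (8 * C₀ + 4)]
    exact Real.log_le_log (Real.exp_pos _) hB1
  refine ⟨1 / B, by positivity, B + 2, fun y hy => ?_⟩
  have hy2 : (2 : ℝ) ≤ y := by exact_mod_cast (by omega : 2 ≤ y)
  have hy0 : (0 : ℝ) < y := by linarith
  have hlogy : 0 < Real.log y := Real.log_pos (by linarith)
  obtain ⟨y', hy'⟩ : ∃ y' : ℕ, y' = y / B := ⟨_, rfl⟩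
  have hy'1 : 1 ≤ y' := by
    rw [hy', Nat.one_le_div_iff hBpos]
    omega
  have hy'0 : (0 : ℝ) < y' := by exact_mod_cast hy'1
  have hy'B : (y' : ℝ) * B ≤ y := by
    have : y' * B ≤ y := by rw [hy']; exact Nat.div_mul_le_self y B
    exact_mod_cast this
  have hyB' : (y : ℝ) < (y' + 1) * B := by
    have : y < (y' + 1) * B := by
      rw [hy']
      have := Nat.lt_mul_div_succ y hBpos
      rw [Nat.mul_comm]
      exact this
    exact_mod_cast this
  have hle : y' ≤ y := by rw [hy']; exact Nat.div_le_self y B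
  have hlog' : Real.log y' + Real.log B ≤ Real.log y := by
    rw [← Real.log_mul hy'0.ne' hB0.ne']
    exact Real.log_le_log (by positivity) hy'B
  have h1 := (abs_le.mp (hC₀ y (by omega))).1
  have h2 := (abs_le.mp (hC₀ y' hy'1)).2
  have hsplit : ∑ l ∈ (Finset.Icc 1 y).filter (fun l => l ∈ S), Real.log l / l =
      ∑ l ∈ (Finset.Icc 1 y').filter (fun l => l ∈ S), Real.log l / l +
      ∑ l ∈ (Finset.Ioc y' y).filter (fun l => l ∈ S), Real.log l / l := by
    rw [← Finset.sum_union]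
    · apply Finset.sum_congr _ fun _ _ => rfl
      ext l
      simp only [mem_union, mem_filter, mem_Icc, mem_Ioc]
      constructor
      · rintro ⟨h3, h4⟩
        rcases le_or_gt l y' with h5 | h5
        · exact Or.inl ⟨⟨h3.1, h5⟩, h4⟩
        · exact Or.inr ⟨⟨h5, h3.2⟩, h4⟩
      · rintro (⟨h3, h4⟩ | ⟨h3, h4⟩)
        · exact ⟨⟨h3.1, h3.2.trans hle⟩, h4⟩
        · exact ⟨⟨by omega, h3.2⟩, h4⟩
    · rw [Finset.disjoint_left]
      intro l h3 h4
      simp only [mem_filter, mem_Icc, mem_Ioc] at h3 h4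
      omega
  have hbound : ∑ l ∈ (Finset.Ioc y' y).filter (fun l => l ∈ S), Real.log l / l ≤
      ((Finset.Ioc y' y).filter (fun l => l ∈ S)).card * (B * Real.log y / y) := by
    rw [← nsmul_eq_mul]
    apply Finset.sum_le_card_nsmul
    intro l hl
    rw [mem_filter, mem_Ioc] at hl
    have hl1 : (y' : ℝ) + 1 ≤ l := by exact_mod_cast hl.1.1
    have hl2 : (l : ℝ) ≤ y := by exact_mod_cast hl.1.2
    have hl0 : (0 : ℝ) < l := by linarith
    rw [div_le_div_iff₀ hl0 hy0]
    have h3 : Real.log l ≤ Real.log y := Real.log_le_log hl0 hl2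
    have h4 : (y : ℝ) ≤ B * l := by nlinarith
    calc Real.log l * y ≤ Real.log y * y := mul_le_mul_of_nonneg_right h3 hy0.le
      _ ≤ Real.log y * (B * l) := mul_le_mul_of_nonneg_left h4 hlogy.le
      _ = _ := by ring
  have hcard : (((Finset.Ioc y' y).filter (fun l => l ∈ S)).card : ℝ) ≤
      ((Finset.Icc 1 y).filter (fun l => l ∈ S)).card := by
    exact_mod_cast Finset.card_le_card (by
      intro l hl
      simp only [mem_filter, mem_Icc, mem_Ioc] at hl ⊢
      exact ⟨⟨by omega, hl.1.2⟩, hl.2⟩)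
  have hone : 1 ≤ (((Finset.Icc 1 y).filter (fun l => l ∈ S)).card : ℝ) * (B * Real.log y / y) := by
    have h3 : (((Finset.Ioc y' y).filter (fun l => l ∈ S)).card : ℝ) * (B * Real.log y / y) ≤
        ((Finset.Icc 1 y).filter (fun l => l ∈ S)).card * (B * Real.log y / y) :=
      mul_le_mul_of_nonneg_right hcard (by positivity)
    linarith
  rw [div_le_iff₀ hlogy]
  have h5 : (((Finset.Icc 1 y).filter (fun l => l ∈ S)).card : ℝ) * (B * Real.log y / y) =
      (((Finset.Icc 1 y).filter (fun l => l ∈ S)).card * Real.log y) * (B / y) := by ring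
  rw [h5] at hone
  have h6 : (1 : ℝ) / B * y = 1 * (y / B) := by ring
  rw [h6]
  have h7 := mul_le_mul_of_nonneg_right hone (show (0 : ℝ) ≤ y / B by positivity)
  have h8 : (((Finset.Icc 1 y).filter (fun l => l ∈ S)).card * Real.log y : ℝ) * (B / y) * (y / B) =
      ((Finset.Icc 1 y).filter (fun l => l ∈ S)).card * Real.log y := by
    field_simp
  rw [h8] at h7
  exact h7

end Pool.Agent.Lib.MP_ba0fa5_ag.H72
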